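import Pool.Agent.MP_da1f04_co.R91.Spec

/-! Basic facts about ranks, collected values, solutions and gadgets. -/

set_option autoImplicit false

namespace Pool.Agent.MP_da1f04_co.R91

open Set Function I91

section nodes

variable {m n s p p' : Nd}

theorem t_pre_f : m ++ [true] <+: n ++ [false] ↔ m ++ [true] <+: n :=
  ⟨fun h => (pre_app_cases h).resolve_left (by simp), fun h => h.trans (pre_app _ _)⟩

theorem f_pre_t : m ++ [false] <+: n ++ [true] ↔ m ++ [false] <+: n :=
  ⟨fun h => (pre_app_cases h).resolve_left (by simp), fun h => h.trans (pre_app _ _)⟩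

theorem app_pre_app {d : Bool} : m ++ [d] <+: n ++ [d] ↔ m = n ∨ m ++ [d] <+: n :=
  ⟨fun h => (pre_app_cases h).imp_left List.append_cancel_right,
    fun h => h.elim (fun e => e ▸ List.prefix_rfl) fun h => h.trans (pre_app _ _)⟩

theorem ne_of_app_pre {d : Bool} (h : m ++ [d] <+: n) : m ≠ n := fun e => not_app_pre (e ▸ h)

theorem pre_cases (h : n <+: m) : m = n ∨ n ++ [false] <+: m ∨ n ++ [true] <+: m := by
  by_cases e : n = m
  · exact Or.inl e.symm
  · obtain ⟨d, hd⟩ := pre_step h e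
    cases d
    exacts [Or.inr (Or.inl hd), Or.inr (Or.inr hd)]

/-- Two paths do not separate in both orders. -/
theorem not_swap (h1 : m ++ [false] <+: p) (h2 : m ++ [true] <+: p') (h3 : n ++ [true] <+: p)
    (h4 : n ++ [false] <+: p') : False :=
  lt_asymm (lt_of_meet h1 h2) (lt_of_meet h4 h3)

theorem finite_pre (p : Nd) : {m : Nd | m <+: p}.Finite :=
  (List.finite_toSet p.inits).subset fun m h => (List.mem_inits m p).2 h

end nodes

section rn

variable {I I' : Set Nd} {j j' : ℕ} {s s' n : Nd}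

theorem Rn.up (h : Rn I j s') (hs : s <+: s') : Rn I j s := by
  cases j with
  | zero => exact h.imp fun m hm => ⟨hm.1, hs.trans hm.2⟩
  | succ j =>
    obtain ⟨m, h1, m', h2, h3, h4, h5⟩ := h
    exact ⟨m, h1, m', h2, hs.trans h3, hs.trans h4, h5⟩

theorem Rn.loc (h : Rn I j s) (hI : ∀ m ∈ I, s <+: m → m ∈ I') : Rn I' j s := by
  induction j generalizing s with
  | zero => exact h.imp fun m hm => ⟨hI m hm.1 hm.2, hm.2⟩
  | succ j ih =>
    obtain ⟨m, h1, m', h2, h3, h4, h5, h6, h7⟩ := h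
    exact ⟨m, hI m h1 h3, m', hI m' h2 h4, h3, h4, h5,
      ih h6 fun x hx e => hI x hx (h3.trans ((pre_app _ _).trans e)),
      ih h7 fun x hx e => hI x hx (h4.trans ((pre_app _ _).trans e))⟩

theorem Rn.pred (h : Rn I (j + 1) s) : Rn I j s := by
  obtain ⟨m, -, -, -, h3, -, -, h6, -⟩ := h
  exact h6.up (h3.trans (pre_app _ _))

theorem Rn.le (h : Rn I j s) (hj : j' ≤ j) : Rn I j' s := by
  induction hj with
  | refl => exact h
  | step _ ih => exact ih h.pred

theorem Rn.mem (h : Rn I j s) : ∃ m ∈ I, s <+: m := h.le (Nat.zero_le _)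

/-- No ignored time at the node or on either side. -/
theorem rn_zero (h : n ∉ I) (h0 : ¬ Rn I 0 (n ++ [false])) (h1 : ¬ Rn I 0 (n ++ [true])) :
    ¬ Rn I 0 n := by
  rintro ⟨m, hm, e⟩
  rcases pre_cases e with e | e | e
  exacts [h (e ▸ hm), h0 ⟨m, hm, e⟩, h1 ⟨m, hm, e⟩]

/-- The smaller budget is on the side `true`. -/
theorem rn_succ_t (h0 : ¬ Rn I (j + 1) (n ++ [false])) (h1 : ¬ Rn I j (n ++ [true])) :
    ¬ Rn I (j + 1) n := by
  rintro ⟨m, a1, m', a2, a3, a4, a5, a6, a7⟩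
  have key : ∀ x, n <+: x → Rn I j (x ++ [true]) → n ++ [false] <+: x := fun x e r => by
    rcases pre_cases e with e | e | e
    exacts [(h1 (e ▸ r)).elim, e, (h1 (r.up (e.trans (pre_app _ _)))).elim]
  exact h0 ⟨m, a1, m', a2, key m a3 a6, key m' a4 a7, a5, a6, a7⟩

/-- The smaller budget is on the side `false`. -/
theorem rn_succ_f (h0 : ¬ Rn I j (n ++ [false])) (h1 : ¬ Rn I (j + 1) (n ++ [true])) :
    ¬ Rn I (j + 1) n := by
  rintro ⟨m, a1, m', a2, a3, a4, a5, a6, a7⟩
  have key : ∀ x, n <+: x → Rn I j (x ++ [true]) → x = n ∨ n ++ [true] <+: x := fun x e r => by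
    rcases pre_cases e with e | e | e
    exacts [Or.inl e, (h0 (r.up (e.trans (pre_app _ _)))).elim, Or.inr e]
  rcases key m a3 a6 with e | e <;> rcases key m' a4 a7 with e' | e'
  · exact a5.1 (by rw [e, e'])
  · exact a5.1 (e ▸ e'.trans (pre_app _ _))
  · exact a5.2 (e' ▸ e.trans (pre_app _ _))
  · exact h1 ⟨m, a1, m', a2, e, e', a5, a6, a7⟩

/-- All ignored times below the node lie on the side `false`. -/
theorem rn_left (h : ∀ m ∈ I, n <+: m → n ++ [false] <+: m) (h0 : ¬ Rn I j (n ++ [false])) :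
    ¬ Rn I j n := by
  intro r
  cases j with
  | zero => exact h0 (r.imp fun m hm => ⟨hm.1, h m hm.1 hm.2⟩)
  | succ j =>
    obtain ⟨m, a1, m', a2, a3, a4, a5⟩ := r
    exact h0 ⟨m, a1, m', a2, h m a1 a3, h m' a2 a4, a5⟩

end rn

section game

variable {V Z α K : Type} {X : Dat V Z} {k D : ℕ} {a a' : Nd → Option α} {x : V} {s s' n : Nd}
  {L : Nd → Set (Option α)} {β β' : Z → ℕ}

theorem av_none (B : Set α) : Av none B := fun _ h => nomatch h

theorem av_some {p : α} {B : Set α} : Av (some p) B ↔ p ∉ B :=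
  ⟨fun h => h p rfl, fun h _ e => Option.some.inj e ▸ h⟩

theorem not_av {o : Option α} {B : Set α} : ¬ Av o B ↔ ∃ p ∈ B, o = some p := by
  cases o with
  | none => simp [av_none]
  | some p => simp [av_some]

theorem got_congr (h : ∀ m, m ++ [true] <+: s → X.tl x m → a' m = a m) :
    got X a' x s = got X a x s :=
  Set.ext fun _ => ⟨fun ⟨m, h1, h2, h3⟩ => ⟨m, h1, h2, h m h1 h2 ▸ h3⟩,
    fun ⟨m, h1, h2, h3⟩ => ⟨m, h1, h2, (h m h1 h2).trans h3⟩⟩

theorem got_mono (h : s <+: s') : got X a x s ⊆ got X a x s' :=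
  fun _ ⟨m, h1, h2⟩ => ⟨m, h1.trans h, h2⟩

theorem got_false : got X a x (n ++ [false]) = got X a x n :=
  Set.ext fun _ => exists_congr fun _ => and_congr_left' t_pre_f

theorem mem_got_true {o : Option α} {p : α} :
    p ∈ got X (update a n o) x (n ++ [true]) ↔ p ∈ got X a x n ∨ (X.tl x n ∧ o = some p) := by
  constructor
  · rintro ⟨m, h1, h2, h3⟩
    rcases app_pre_app.1 h1 with rfl | h1
    · exact Or.inr ⟨h2, by rwa [update_self] at h3⟩
    · exact Or.inl ⟨m, h1, h2, by rwa [update_of_ne (ne_of_app_pre h1)] at h3⟩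
  · rintro (⟨m, h1, h2, h3⟩ | ⟨h1, h2⟩)
    · exact ⟨m, h1.trans (pre_app _ _), h2, by rwa [update_of_ne (ne_of_app_pre h1)]⟩
    · exact ⟨n, List.prefix_rfl, h1, by rwa [update_self]⟩

theorem got_true_none : got X (update a n none) x (n ++ [true]) = got X a x n :=
  Set.ext fun _ => mem_got_true.trans (by simp)

theorem got_nil : got X a x [] = ∅ := Set.eq_empty_of_forall_notMem fun _ ⟨m, h, _⟩ => by simp at h

theorem Off.tgp (O : Off X k) {m : Nd} (h : X.tg x m) : m ++ [false] <+: X.lam x :=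
  (O.tgo x m h).elim fun _ h => h.2.2

/-- Tails at the same time have collected the same values. -/
theorem Off.got_tl (O : Off X k) {c c' : V} (h : X.tl c n) (h' : X.tl c' n) :
    got X a c n = got X a c' n :=
  Set.ext fun _ => ⟨fun ⟨m, h1, h2, h3⟩ => ⟨m, h1, O.tls c c' n m h h' h1 h2, h3⟩,
    fun ⟨m, h1, h2, h3⟩ => ⟨m, h1, O.tls c' c n m h' h h1 h2, h3⟩⟩

/-- Targets at the same time collect the same values. -/
theorem Off.got_tg (O : Off X k) {x' : V} (h : X.tg x n) (h' : X.tg x' n) :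
    got X a x (X.lam x) = got X a x' (X.lam x') := by
  rw [(O.tgs x x' n h h').1]
  exact Set.ext fun _ => ⟨fun ⟨m, h1, h2, h3⟩ => ⟨m, h1, (O.tgs x x' n h h').2 m h2, h3⟩,
    fun ⟨m, h1, h2, h3⟩ => ⟨m, h1, (O.tgs x' x n h' h).2 m h2, h3⟩⟩

theorem Solv.mono (h : Solv X D s a L β) (hβ : ∀ ζ, X.b ζ <+: s → β ζ ≤ β' ζ) :
    Solv X D s a L β' := by
  obtain ⟨a', h1, h2, h3, h4, h5⟩ := h
  exact ⟨a', h1, h2, h3, fun ζ e r => h4 ζ e (r.le (hβ ζ e)), h5⟩

/-- Nodes without vertices below them are solved. -/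
theorem Off.triv (O : Off X k) (h : ∀ x, ¬ s <+: X.lam x) : Solv X D s a L β := by
  have key : ∀ ζ j t, s <+: t → ¬ Rn (Ign X a ζ) j t := fun ζ j t e r => by
    obtain ⟨m, ⟨-, c, hc, -⟩, e'⟩ := r.mem
    exact h c (e.trans (e'.trans ((pre_app _ _).trans (O.tlp c m hc))))
  exact ⟨a, fun _ _ => rfl, fun m x e t => (h x (e.trans ((pre_app _ _).trans (O.tgp t)))).elim,
    fun _ x _ _ e => (h x e).elim, fun ζ _ => key ζ _ _ List.prefix_rfl, fun ζ e => key ζ _ _ e⟩

/-- Induction from the bottom of the tree. -/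
theorem tree_ind [Finite V] (lam : V → Nd) {P : Nd → Prop}
    (h0 : ∀ s, (∀ x, ¬ s <+: lam x) → P s)
    (h1 : ∀ s, (∀ s', s <+: s' → s' ≠ s → P s') → P s) (s : Nd) : P s := by
  obtain ⟨M, hM⟩ := (finite_range fun x => (lam x).length).bddAbove
  induction hn : M + 1 - s.length using Nat.strong_induction_on generalizing s with | h i ih
  by_cases e : M < s.length
  · exact h0 s fun x hx => absurd (hx.length_le.trans (hM ⟨x, rfl⟩)) (not_le.2 e)
  · refine h1 s fun s' h hne => ih _ ?_ s' rfl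
    have := lt_of_le_of_ne h.length_le fun e => hne (h.eq_of_length e).symm
    omega

variable {S S' : Set V} {τ τ' : V → Nd} {ρ : Nd → Option K} {Λ : Nd → Set (Option (K × Fin 3))}
  {w : Nd}

theorem Str.up (h : Str X s' S τ) (hs : s <+: s') : Str X s S τ :=
  ⟨fun x hx => hs.trans (h.1 x hx), h.2⟩

theorem Str.congr (h : Str X s S τ) (e : ∀ x ∈ S, τ' x = τ x) : Str X s S τ' :=
  ⟨h.1, h.2.1, fun c hc x hx m o => (h.2.2 c hc x hx m o).imp fun y hy =>
    ⟨hy.1, hy.2.1, (e y hy.1).trans hy.2.2⟩⟩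

theorem str_single (h : s <+: X.lam x) : Str X s {x} τ :=
  ⟨by simpa using h, injOn_singleton _ _, by
    rintro _ rfl _ rfl m o
    exact (o.lam_ne rfl).elim⟩

theorem str_empty : Str X s ∅ τ := ⟨by simp, injOn_empty _, by simp⟩

/-- Forcing passes to larger sets and only depends on the tags of the members. -/
theorem Force.sup (h : Force X s ρ Λ S τ) (hS : S ⊆ S') (e : ∀ x ∈ S, τ' x = τ x) :
    Force X s ρ Λ S' τ' := fun φ h1 h2 => by
  obtain ⟨x, hx, h3⟩ := h φ (fun x hx y hy => h1 x (hS hx) y (hS hy)) fun x hx => h2 x (hS hx)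
  exact ⟨x, hS hx, by rwa [e x hx]⟩

theorem Terr.congr (h : Terr X S τ w) (e : ∀ x ∈ S, τ' x = τ x) : Terr X S τ' w :=
  fun x hx => (h x hx).imp_right fun ⟨n, h1, h2, y, h3, h4, h5⟩ =>
    ⟨n, h1, h2, y, h3, h4, (e y h3).trans h5⟩

theorem Inv.left {a : Nd → Option (K × Fin 3)} (h : Inv X n a ρ) : Inv X (n ++ [false]) a ρ :=
  fun x => by simpa only [got_false] using h x

theorem Inv.right_none {a : Nd → Option (K × Fin 3)} (h : Inv X n a ρ) :
    Inv X (n ++ [true]) (update a n none) (update ρ n none) :=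
  fun x => by simpa only [got_true_none] using h x

end game

end Pool.Agent.MP_da1f04_co.R91
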