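import Pool.Agent.MP_da1f04_co.R91.Comp

/-! The walk below a node, and the step for the common gadget. -/

set_option autoImplicit false

namespace Pool.Agent.MP_da1f04_co.R91

open Set Function I91

theorem br (hF : FamSt) : BrSt := by
  intro V Z K _ _ X k O D u To hUE s
  induction s using tree_ind X.lam with
  | h0 s h => exact fun j a ρ L _ _ _ _ _ _ ns => (ns (O.triv h)).elim
  | h1 m ih => ?_
  intro j a ρ L hu hj inv i2 i3 i4 ns
  have ih0 := fun j a ρ L => ih _ (pre_app m false) (by simp) j a ρ L (hu.trans (pre_app _ _))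
  have ih1 := fun j a ρ L => ih _ (pre_app m true) (by simp) j a ρ L (hu.trans (pre_app _ _))
  clear ih
  have F := fun Lm j => hF V Z K X k O m ρ L Lm j
  cases j with
  | zero =>
    obtain ⟨S, τ, h1, h2⟩ := (hUE m hu).1 a ρ L inv (by simpa using ns)
    exact Or.inr ((F ∅ 0).1 S τ h1 h2)
  | succ i => ?_
  by_cases lf : Lf X m a L
  swap
  · simp only [Lf, not_forall, not_exists, not_and, not_av] at lf
    obtain ⟨m', x, h1, h2, h3, h4⟩ := lf
    rcases pre_or_app hu h1 with e | e
    · obtain ⟨o, ho⟩ := i4 m' e h1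
      obtain ⟨p, hp, -⟩ := h4 o ho
      rw [i3 x fun h => not_app_pre (((O.deep x m' h2).trans h).trans e)] at hp
      exact hp.elim
    · refine Or.inl ⟨x, m', h3 ▸ hu, e, h2, fun h => ?_, fun t ht => (i2 x t ht).imp fun d hd h => ?_⟩
      · obtain ⟨_, -, e⟩ := h4 _ h
        exact nomatch e
      · obtain ⟨p, hp, e⟩ := h4 _ h
        exact hd (Option.some.inj e ▸ hp)
  have hD : ∀ ζ, (if X.b ζ <+: u then 0 else i + 1) ≤ D := fun ζ => by split_ifs <;> omega
  have go0 : ∀ j Lm, j ≤ D → Lm.Nonempty → ¬ Solv X D (m ++ [false]) a (update L m Lm)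
      (fun ζ => if X.b ζ <+: u then 0 else j) →
      (∃ x m, u <+: X.lam x ∧ m ++ [false] <+: u ∧ X.tg x m ∧ none ∉ L m ∧
        ∀ t, t ∉ To x → ∃ d, some (t, d) ∉ L m) ∨ HasFam X (m ++ [false]) ρ (update L m Lm) j := by
    intro j Lm hj hne h
    refine (ih0 j a ρ (update L m Lm) hj inv.left
      (fun x => by simpa only [got_false] using i2 x)
      (fun x hx => got_false.trans (i3 x hx)) (fun m' e e' => ?_) h).imp_left ?_
    · rcases app_pre_app.1 e' with e' | e'
      · rwa [e', update_self]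
      · rw [update_of_ne (ne_of_app_pre e')]
        exact i4 m' e e'
    · rintro ⟨x, m', h1, h2, h3⟩
      rw [update_of_ne (ne_of_app_pre (h2.trans hu))] at h3
      exact ⟨x, m', h1, h2, h3⟩
  have i41 : ∀ m', u <+: m' → m' ++ [false] <+: m ++ [true] → (L m').Nonempty :=
    fun m' e e' => i4 m' e (f_pre_t.1 e')
  by_cases old : ∃ c, X.tl c m ∧ X.b (X.z c) <+: u
  · obtain ⟨c, hc, ho⟩ := old
    obtain ⟨p, hp⟩ : ∃ p : K × Fin 3, ∀ x, got X (update a m (some p)) x (m ++ [true]) =
        got X a x m ∨ (X.tl x m ∧ got X (update a m (some p)) x (m ++ [true]) = {p}) := by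
      rcases (got X a c m).eq_empty_or_nonempty with h | ⟨p, h⟩
      · refine ⟨Classical.arbitrary _, fun x => (em (X.tl x m)).symm.imp (fun t => ?_)
          fun t => ⟨t, ?_⟩⟩
        · exact Set.ext fun q => mem_got_true.trans (by simp [t])
        · exact Set.ext fun q => mem_got_true.trans (by simp [t, O.got_tl t hc, h, eq_comm])
      · refine ⟨p, fun x => Or.inl (Set.ext fun q => mem_got_true.trans ⟨fun e => e.elim id ?_,
          Or.inl⟩)⟩
        rintro ⟨t, e⟩
        rw [O.got_tl t hc, ← Option.some.inj e]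
        exact h
    by_cases h1 : Solv X D (m ++ [true]) (update a m (some p)) L
      fun ζ => if X.b ζ <+: u then 0 else i + 1
    · let Lm : Set (Option (K × Fin 3)) := {o | ∃ p, o = some p ∧
        Solv X D (m ++ [true]) (update a m (some p)) L fun ζ => if X.b ζ <+: u then 0 else i + 1}
      have nn : none ∉ Lm := fun ⟨_, e, _⟩ => nomatch e
      refine (go0 (i + 1) Lm hj ⟨_, p, rfl, h1⟩ fun h => ns (comp V Z _ X k O D m a L _ _ _ Lm hD lf
        (fun _ => ⟨_, p, rfl, h1⟩) h (fun _ ⟨_, e, h⟩ => e ▸ h) fun ζ I b1 b2 b3 => ?_)).imp_right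
        fun h => ?_
      · split_ifs with e
        · exact rn_zero fun i => nn (b3 i)
        · refine fun r _ => rn_left (fun m' h e' => ?_) r
          rcases pre_cases e' with e' | e' | e'
          · exact (nn (b3 (e' ▸ h))).elim
          · exact e'
          · obtain ⟨c', h1, h2⟩ := b2 m' h
            rw [O.one c m c' m' hc h1 e' (h2 ▸ b1.trans (pre_app _ _)), h2] at ho
            exact (e ho).elim
      · obtain ⟨S, τ, s1, f1⟩ := (hUE m hu).2 a ρ L inv
        exact (F Lm (i + 1)).2.2.2.1 h S τ s1 fun t d h => f1 t d fun h' =>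
          h ⟨_, rfl, h'.mono fun _ _ => Nat.zero_le _⟩
    · refine (ih1 (i + 1) _ (update ρ m none) L hj (fun x => ?_) (fun x t ht => ?_)
        (fun x hx => ?_) i41 h1).imp_right (F ∅ (i + 1)).2.1
      · rw [got_true_none]
        rcases hp x with e | ⟨-, e⟩ <;> rw [e]
        · exact inv x
        · exact subsingleton_singleton.anti fun _ h => h.1
      · rcases hp x with e | ⟨-, e⟩ <;> rw [e]
        · exact i2 x t ht
        · obtain ⟨d, hd⟩ := exists_ne p.2
          exact ⟨d, fun h => hd (congrArg Prod.snd h)⟩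
      · rcases hp x with e | ⟨t, -⟩
        · exact e.trans (i3 x hx)
        · exact (hx (O.zs x c m t hc ▸ ho)).elim
  · have go1 := fun j hj => ih1 j (update a m none) (update ρ m none) L hj inv.right_none
      (fun x => by simpa only [got_true_none] using i2 x)
      (fun x hx => got_true_none.trans (i3 x hx)) i41
    have cp : ∀ j0 j1, (∀ I, ¬ Rn I j0 (m ++ [false]) → ¬ Rn I j1 (m ++ [true]) →
        ¬ Rn I (i + 1) m) → (Solv X D (m ++ [false]) a (update L m {none})
          fun ζ => if X.b ζ <+: u then 0 else j0) → ¬ Solv X D (m ++ [true]) (update a m none) L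
          fun ζ => if X.b ζ <+: u then 0 else j1 := fun j0 j1 hr h0 h1 =>
      ns (comp V Z _ X k O D m a L _ _ _ {none} hD lf (fun _ => singleton_nonempty _) h0
        (fun _ e => e ▸ h1) fun ζ I _ b2 _ => by
          split_ifs with e
          · exact rn_zero fun i => (b2 m i).elim fun c hc => old ⟨c, hc.1, hc.2 ▸ e⟩
          · exact hr I)
    by_cases h1 : Solv X D (m ++ [true]) (update a m none) L
      fun ζ => if X.b ζ <+: u then 0 else i + 1
    swap
    · exact (go1 (i + 1) hj h1).imp_right (F ∅ (i + 1)).2.1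
    by_cases h0 : Solv X D (m ++ [false]) a (update L m {none})
      fun ζ => if X.b ζ <+: u then 0 else i + 1
    swap
    · exact (go0 (i + 1) {none} hj (singleton_nonempty _) h0).imp_right fun h =>
        (F {none} (i + 1)).2.2.1 h rfl
    rcases go0 i {none} (by omega) (singleton_nonempty _)
      (fun h => cp i (i + 1) (fun _ => rn_succ_f) h h1) with g0 | g0
    · exact Or.inl g0
    · exact (go1 i (by omega) (cp (i + 1) i (fun _ => rn_succ_t) h0)).imp_right
        ((F {none} i).2.2.2.2 g0 rfl)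

theorem eStep (hB : BrSt) (hU : UnionSt) : EStepSt := by
  intro V Z K _ _ _ X k O D n hD hUE a ρ L inv
  let R := {t : K // ∃ d, ¬ Solv X D (n ++ [true]) (update a n (some (t, d))) L fun _ => 0}
  have sub : ∀ t x, got X ρ x n ⊆ got X (update ρ n (some t)) x (n ++ [true]) :=
    fun t x _ h => mem_got_true.2 (Or.inl h)
  have key := fun (t : K) (ht : ∃ d, ¬ Solv X D (n ++ [true]) (update a n (some (t, d))) L
    fun _ => 0) => hB V Z K X k O D (n ++ [true]) (fun x => got X ρ x n) hUE
    (n ++ [true]) D (update a n (some (t, ht.choose))) (update ρ n (some t)) L List.prefix_rfl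
    le_rfl
    (fun x => (inv x).anti fun p hp => ⟨(mem_got_true.1 hp.1).resolve_right fun h =>
      hp.2 (mem_got_true.2 (Or.inr ⟨h.1, by rw [← Option.some.inj h.2]⟩)),
      fun h => hp.2 (sub t x h)⟩)
    (fun x t' ht' => by
      by_contra h
      have h1 : ∀ d, d ≠ ht.choose → (t', d) ∈ got X a x n := fun d hd =>
        (mem_got_true.1 (not_not.1 (not_exists.1 h d))).resolve_right fun e =>
          hd (congrArg Prod.snd (Option.some.inj e.2)).symm
      have h2 : ∀ e : Fin 3, e + 1 ≠ e ∧ e + 2 ≠ e ∧ e + 1 ≠ e + 2 := by decide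
      exact (h2 _).2.2 (congrArg Prod.snd
        (inv x ⟨h1 _ (h2 _).1, ht'⟩ ⟨h1 _ (h2 _).2.1, ht'⟩)))
    (fun x hx => eq_empty_of_forall_notMem fun _ ⟨m, h1, h2, _⟩ => hx ((O.born x m h2).trans h1))
    (fun m e e' => (not_app_pre (e'.trans e)).elim)
    fun h => ht.choose_spec (h.mono fun ζ e => by simp [e])
  by_cases h : ∃ x m, n ++ [true] <+: X.lam x ∧ m ++ [false] <+: n ++ [true] ∧ X.tg x m ∧
    none ∉ L m ∧ ∀ t, t ∉ got X ρ x n → ∃ d, some (t, d) ∉ L m
  · obtain ⟨x, m, h1, h2, h3, h4, h5⟩ := h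
    exact ⟨{x}, fun _ => m, str_single h1, fun t _ _ φ _ h6 =>
      ⟨x, rfl, h2, h3, h4, h5 _ fun e => h6 x rfl (sub t x e)⟩⟩
  · obtain ⟨S, τ, h1, h2⟩ := hU V Z K R X k O (Nat.card K) D (n ++ [true])
      (fun t => update ρ n (some t.1)) L (Nat.card_le_card_of_injective _ Subtype.val_injective) hD
      fun t => (key t.1 t.2).resolve_left h
    exact ⟨S, τ, h1, fun t d hd => h2 ⟨t, d, hd⟩⟩

end Pool.Agent.MP_da1f04_co.R91
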