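import Pool.Agent.MP_da1f04_co.R91.Basic

/-! A solution at the root colours the official edges. -/

set_option autoImplicit false

namespace Pool.Agent.MP_da1f04_co.R91

open Set Function I91

namespace Col

theorem last {p : ℕ → Prop} (h0 : p 0) {D : ℕ} (h : ¬ p D) : ∃ j : Fin D, p j ∧ ¬ p (j + 1) := by
  induction D with
  | zero => exact absurd h0 h
  | succ D ih =>
    by_cases k : p D
    · exact ⟨Fin.last D, k, h⟩
    · obtain ⟨j, hj⟩ := ih k
      exact ⟨j.castSucc, hj⟩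

variable {V : Type} {G : SimpleGraph V} {lam : V → Nd} {k g : ℕ}

/-- States with a nonempty past in which no vertex has rank `j`. -/
def PP (G : SimpleGraph V) (lam : V → Nd) (I : Nd × Set V → Set Nd) (j : ℕ) (s : Nd) (τ : Set V) :
    Prop :=
  τ.Nonempty ∧ ∀ c, s <+: lam c → past G lam c s = τ → ¬ Rn (I (zone G lam c)) j s

theorem pp_of {I : Nd × Set V → Set Nd} {j : ℕ} {s : Nd} {c : V} (hs : s <+: lam c)
    (h : (past G lam c s).Nonempty) (r : ¬ Rn (I (zone G lam c)) j s) :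
    PP G lam I j s (past G lam c s) :=
  ⟨h, fun _ h1 h2 => zone_congr hs h1 h2.symm h ▸ r⟩

theorem level [Finite V] (h : ChainSt) (M : Model G lam k g) (I : Nd × Set V → Set Nd) (j : ℕ) :
    Kill (fun c x => ∃ t, out G lam c x t ∧ t ∈ I (zone G lam c) ∧ (past G lam c t).Nonempty ∧
      Rn (I (zone G lam c)) j t ∧ ¬ Rn (I (zone G lam c)) (j + 1) t)
      ((2 * k + 1) * (2 * (k * (g + 1)) + 1)) := by
  refine ((M.special (PP G lam I j)).or (h V G lam k g M (PP G lam I (j + 1))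
    (fun c x t => (out G lam c x t ∧ fsn G lam (PP G lam I (j + 1)) c <+: t ∧
      PP G lam I (j + 1) (fsn G lam (PP G lam I (j + 1)) c)
        (past G lam c (fsn G lam (PP G lam I (j + 1)) c))) ∧
      t ∈ I (zone G lam c) ∧ Rn (I (zone G lam c)) j (t ++ [true]))
    (fun _ _ h => h.1) (fun _ _ _ h => h.1) ?_)).imp ?_
  · rintro c x t c' x' t' ⟨⟨-, a1, a2⟩, a3, a4⟩ ⟨⟨-, b1, -⟩, b3, b4⟩ e hi
    have e1 : fsn G lam (PP G lam I (j + 1)) c = fsn G lam (PP G lam I (j + 1)) c' :=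
      congrArg Prod.fst e
    have e2 : past G lam c (fsn G lam (PP G lam I (j + 1)) c) =
        past G lam c' (fsn G lam (PP G lam I (j + 1)) c') := congrArg Prod.snd e
    rw [← e1] at e2 b1
    have e3 : zone G lam c = zone G lam c' := zone_congr fsn_pre (e1 ▸ fsn_pre) e2 a2.1
    rw [← e3] at b3 b4
    exact a2.2 c fsn_pre rfl ⟨t, a3, t', b3, a1, b1, hi, a4, b4⟩
  · rintro c x ⟨t, h1, a1, a2, a3, a4⟩
    by_cases r : Rn (I (zone G lam c)) j (t ++ [true])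
    · obtain ⟨b1, b2⟩ := fsn_min (P := PP G lam I (j + 1)) h1.pre (pp_of h1.pre a2 a4)
      exact Or.inr ⟨t, ⟨h1, b1, b2⟩, a1, r⟩
    · obtain ⟨b1, b2⟩ := fsn_min (P := PP G lam I j) h1.2.1 (pp_of h1.2.1 ⟨x, h1.mem⟩ r)
      exact Or.inl ⟨t, h1, (pre_app_cases b1).resolve_right fun e => b2.2 c fsn_pre rfl (a3.up e)⟩

end Col

theorem col (h : ChainSt) : ColSt := by
  intro α _ k g D
  refine ⟨Nat.card (Set α) * ((2 * k + 1) *
    ((2 * k + 1) * (2 * (k * (g + 1)) + 1)) ^ Nat.card (Fin D)), ?_⟩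
  rintro V _ G lam tl tg M O a L β ⟨a2, -, h2, -, -, h5⟩
  refine ((Kill.of_card (R := fun c x => ∃ m p, tl c m ∧ tg x m ∧ a2 m = some p)
    (fun x => got ⟨G, lam, tl, tg, zone G lam, Prod.fst⟩ a2 x (lam x)) ?_ le_rfl).or
    ((M.special fun _ τ => τ.Nonempty).or (Kill.exists fun j : Fin D =>
      Col.level h M (Ign ⟨G, lam, tl, tg, zone G lam, Prod.fst⟩ a2) j))).imp ?_
  · rintro c x ⟨m, p, h6, h7, h8⟩ e
    refine h2 m x List.nil_prefix h7 p h8 ?_
    exact (e ▸ ⟨m, O.tlp c m h6, h6, h8⟩ :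
      p ∈ got ⟨G, lam, tl, tg, zone G lam, Prod.fst⟩ a2 x (lam x))
  · rintro c x ⟨m, h6, h7⟩
    have o : out G lam c x m := ⟨O.adj c x m h6 h7, O.tlp c m h6, O.tgp h7⟩
    rcases e : a2 m with _ | p
    swap
    · exact Or.inl ⟨m, p, h6, h7, e⟩
    have hm : m ∈ Ign ⟨G, lam, tl, tg, zone G lam, Prod.fst⟩ a2 (zone G lam c) := ⟨e, c, h6, rfl⟩
    by_cases ne : (past G lam c m).Nonempty
    · obtain ⟨j, b1, b2⟩ := Col.last
        (p := fun j => Rn (Ign ⟨G, lam, tl, tg, zone G lam, Prod.fst⟩ a2 (zone G lam c)) j m)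
        ⟨m, hm, List.prefix_rfl⟩ fun r => h5 _ List.nil_prefix (r.up (zone_min o.pre ne).1)
      exact Or.inr (Or.inr ⟨j, m, o, hm, ne, b1, b2⟩)
    · obtain ⟨b1, b2⟩ := fsn_min (P := fun _ τ => τ.Nonempty) o.2.1 ⟨x, o.mem⟩
      exact Or.inr (Or.inl ⟨m, o, (pre_app_cases b1).resolve_right fun e' =>
        ne (b2.mono (past_mono e'))⟩)

end Pool.Agent.MP_da1f04_co.R91
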