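import Pool.Agent.MP_da1f04_co.R91.Basic

/-! Composition of solutions and of gadgets at a node. -/

set_option autoImplicit false

namespace Pool.Agent.MP_da1f04_co.R91

open Set Function I91

theorem comp : CompSt := by
  intro V Z α X k O D n a L β β0 β1 Ln hD lf ne s0 s1 hb
  obtain ⟨a0, p1, p2, p3, p4, p5⟩ := s0
  obtain ⟨o, ho, hav⟩ : ∃ o ∈ Ln, ∀ x, X.tg x n → Av o (got X a0 x (X.lam x)) := by
    by_cases h : ∃ x, X.tg x n
    · obtain ⟨x, hx⟩ := h
      obtain ⟨o, h1, h2⟩ := p3 n x List.prefix_rfl hx (O.tgp hx)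
      rw [update_self] at h1
      exact ⟨o, h1, fun y hy => O.got_tg hx hy ▸ h2⟩
    · exact (ne h).imp fun o ho => ⟨ho, fun x hx => (h ⟨x, hx⟩).elim⟩
  obtain ⟨a1, q1, q2, q3, q4, q5⟩ := s1 o ho
  let c : Nd → Option α := fun m => if n ++ [false] <+: m then a0 m else a1 m
  have c0 : ∀ m, n ++ [false] <+: m → c m = a0 m := fun m h => if_pos h
  have c1 : ∀ m, n ++ [true] <+: m → c m = a1 m := fun m h => if_neg (not_both h)
  have cn : c n = o := (if_neg not_app_pre).trans ((q1 n List.prefix_rfl).trans (update_self ..))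
  have ca : ∀ m, m ++ [true] <+: n → c m = a m := fun m h =>
    (if_neg fun e => not_app_pre (e.trans ((pre_app _ _).trans h))).trans
      ((q1 m (h.trans (pre_app _ _))).trans (update_of_ne (ne_of_app_pre h) ..))
  have g0 : ∀ x, n ++ [false] <+: X.lam x → got X c x (X.lam x) = got X a0 x (X.lam x) :=
    fun x hx => got_congr fun m h _ => by
      rcases pre_or_app hx h with e | e
      · exact c0 m e
      · exact (ca m (t_pre_f.1 e)).trans (p1 m e).symm
  have g1 : ∀ x, n ++ [true] <+: X.lam x → got X c x (X.lam x) = got X a1 x (X.lam x) :=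
    fun x hx => got_congr fun m h _ => if_neg fun e =>
      not_both hx (e.trans ((pre_app _ _).trans h))
  have b3 : ∀ ζ, X.b ζ <+: n → ¬ Rn (Ign X c ζ) (β ζ) n := fun ζ e =>
    hb ζ _ e (fun _ h => h.2) (fun h => cn.symm.trans h.1 ▸ ho)
      (fun r => p4 ζ (e.trans (pre_app _ _)) (r.loc fun m h e' => ⟨c0 m e' ▸ h.1, h.2⟩))
      fun r => q4 ζ (e.trans (pre_app _ _)) (r.loc fun m h e' => ⟨c1 m e' ▸ h.1, h.2⟩)
  refine ⟨c, ca, fun m x e t => ?_, fun m x e t hx => ?_, b3, fun ζ e => ?_⟩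
  · rcases pre_cases e with e | e | e
    · subst e
      rw [cn, g0 x (O.tgp t)]
      exact hav x t
    · rw [c0 m e, g0 x (e.trans ((pre_app _ _).trans (O.tgp t)))]
      exact p2 m x e t
    · rw [c1 m e, g1 x (e.trans ((pre_app _ _).trans (O.tgp t)))]
      exact q2 m x e t
  · rcases pre_cases hx with h | h | h
    · rw [h, got_congr (a := a) fun m h _ => ca m h]
      exact lf m x e t h
    · rw [g0 x h]
      have := p3 m x (e.trans (pre_app _ _)) t h
      rwa [update_of_ne (ne_of_app_pre e)] at this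
    · rw [g1 x h]
      exact q3 m x (e.trans (pre_app _ _)) t h
  · rcases pre_cases e with h | h | h
    · exact fun r => b3 ζ (h ▸ List.prefix_rfl) (h ▸ r.le (hD ζ))
    · exact fun r => p5 ζ h (r.loc fun m i e' => ⟨c0 m (h.trans e') ▸ i.1, i.2⟩)
    · exact fun r => q5 ζ h (r.loc fun m i e' => ⟨c1 m (h.trans e') ▸ i.1, i.2⟩)

theorem lift : LiftSt := by
  intro V Z K X k O n ρ L Ln S S' τ
  have key : ∀ φ : V → K, Force X (n ++ [false]) ρ (update L n Ln) S τ →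
      (∀ x ∈ S, ∀ y ∈ S, X.G.Adj x y → φ x ≠ φ y) → (∀ x ∈ S, φ x ∉ got X ρ x n) →
      (∃ x ∈ S, τ x ++ [false] <+: n ∧ X.tg x (τ x) ∧ none ∉ L (τ x) ∧
        ∃ d, some (φ x, d) ∉ L (τ x)) ∨
      ∃ x ∈ S, X.tg x n ∧ τ x = n ∧ none ∉ Ln ∧ ∃ d, some (φ x, d) ∉ Ln := by
    intro φ h h1 h2
    obtain ⟨x, hx, h3, h4, h5⟩ := h φ h1 fun x hx => by
      rw [got_false]
      exact h2 x hx
    rcases app_pre_app.1 h3 with e | e
    · rw [e, update_self] at h5
      exact Or.inr ⟨x, hx, e ▸ h4, e, h5⟩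
    · rw [update_of_ne (ne_of_app_pre e)] at h5
      exact Or.inl ⟨x, hx, e, h4, h5⟩
  refine ⟨fun h φ h1 h2 => ?_, fun h h' φ h1 h2 => ?_, fun s0 f0 wit s1 f1 => ⟨⟨?_, ?_, ?_⟩, ?_⟩⟩
  · obtain ⟨x, hx, h3, h4⟩ := h φ h1 fun x hx => by
      rw [got_true_none]
      exact h2 x hx
    exact ⟨x, hx, f_pre_t.1 h3, h4⟩
  · refine (key φ h h1 h2).resolve_right fun ⟨x, hx, h3, h4, h5, _⟩ => ?_
    exact h'.elim h5 fun h => h ⟨x, hx, h3, h4⟩
  · rintro x (hx | hx)
    exacts [(pre_app _ _).trans (s0.1 x hx), (pre_app _ _).trans (s1.1 x hx)]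
  · rintro x (hx | hx) y (hy | hy) e
    · exact s0.2.1 hx hy e
    · exact (not_both (s1.1 y hy) (e ▸ s0.1 x hx)).elim
    · exact (not_both (s1.1 x hx) (e ▸ s0.1 y hy)).elim
    · exact s1.2.1 hx hy e
  · rintro c (hc | hc) x (hx | hx) m o
    · exact (s0.2.2 c hc x hx m o).imp fun y hy => ⟨Or.inl hy.1, hy.2⟩
    · exact (not_swap o.2.2 o.2.1 (s1.1 x hx) (s0.1 c hc)).elim
    · rw [meet_unique o.2.2 o.2.1 (s0.1 x hx) (s1.1 c hc)]
      exact wit.imp fun y hy => ⟨Or.inl hy.1, hy.2⟩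
    · exact (s1.2.2 c hc x hx m o).imp fun y hy => ⟨Or.inr hy.1, hy.2⟩
  · intro φ h1 h2
    rcases key φ f0 (fun x hx y hy => h1 x (Or.inl hx) y (Or.inl hy))
      (fun x hx => h2 x (Or.inl hx)) with ⟨x, hx, h3⟩ | ⟨x, hx, h3, -, -, d, h4⟩
    · exact ⟨x, Or.inl hx, h3⟩
    · obtain ⟨y, hy, h5, h6⟩ := f1 (φ x) d h4 φ (fun x hx y hy => h1 x (Or.inr hx) y (Or.inr hy))
        fun y hy h => (mem_got_true.1 h).elim (h2 y (Or.inr hy)) fun h =>
          h1 y (Or.inr hy) x (Or.inl hx) (O.adj y x n h.1 h3) (Option.some.inj h.2).symm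
      exact ⟨y, Or.inr hy, f_pre_t.1 h5, h6⟩

theorem uStep : UStepSt := by
  intro V Z K X k O D n u0 u1 en a ρ L inv ns
  by_cases lf : Lf X n a L
  swap
  · simp only [Lf, not_forall, not_exists, not_and, not_av] at lf
    obtain ⟨m, x, h1, h2, h3, h4⟩ := lf
    refine ⟨{x}, fun _ => m, str_single (h3 ▸ List.prefix_rfl), fun φ _ h5 =>
      ⟨x, rfl, h1, h2, fun h => ?_, by_contra fun h => ?_⟩⟩
    · obtain ⟨_, -, e⟩ := h4 _ h
      exact nomatch e
    · have key : ∀ d, (φ x, d) ∈ got X a x n := fun d => by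
        obtain ⟨p, hp, e⟩ := h4 _ (not_not.1 (not_exists.1 h d))
        exact Option.some.inj e ▸ hp
      exact absurd (congrArg Prod.snd (inv x ⟨key 0, h5 x rfl⟩ ⟨key 1, h5 x rfl⟩)) (by simp)
  by_cases ht : ∃ x, X.tg x n
  · let Ln : Set (Option (K × Fin 3)) := {o | ∃ p, o = some p ∧
      Solv X D (n ++ [true]) (update a n (some p)) L fun _ => 0}
    have nn : none ∉ Ln := fun ⟨_, e, _⟩ => nomatch e
    obtain ⟨S, τ, s0, f0⟩ := u0 a ρ (update L n Ln) inv.left fun h => ns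
      (comp V Z _ X k O D n a L _ _ _ Ln (fun _ => Nat.zero_le _) lf (fun h => (h ht).elim) h
        (fun _ ⟨_, e, h⟩ => e ▸ h) fun ζ I _ _ h => rn_zero fun i => nn (h i))
    by_cases wit : ∃ x ∈ S, X.tg x n ∧ τ x = n
    · obtain ⟨S', τ', s1, f1⟩ := en a ρ L inv
      let σ : V → Nd := fun x => if n ++ [true] <+: X.lam x then τ' x else τ x
      have e0 : ∀ x ∈ S, σ x = τ x := fun x hx => if_neg fun h => not_both h (s0.1 x hx)
      have e1 : ∀ x ∈ S', σ x = τ' x := fun x hx => if_pos (s1.1 x hx)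
      exact ⟨S ∪ S', σ, (lift V Z K X k O n ρ L Ln S S' σ).2.2 (s0.congr e0)
        (f0.sup subset_rfl e0) (wit.imp fun x hx => ⟨hx.1, hx.2.1, (e0 x hx.1).trans hx.2.2⟩)
        (s1.congr e1) fun t d h => (f1 t d fun h' => h ⟨_, rfl, h'⟩).sup subset_rfl e1⟩
    · exact ⟨S, τ, s0.up (pre_app _ _), (lift V Z K X k O n ρ L Ln S S τ).2.1 f0 (Or.inr wit)⟩
  · by_cases h1 : Solv X D (n ++ [true]) (update a n none) L fun _ => 0
    · obtain ⟨S, τ, s0, f0⟩ := u0 a ρ (update L n {none}) inv.left fun h => ns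
        (comp V Z _ X k O D n a L _ _ _ {none} (fun _ => Nat.zero_le _) lf
          (fun _ => singleton_nonempty _) h (fun _ e => e ▸ h1) fun ζ I _ h _ =>
            rn_zero fun i => (h n i).elim fun c hc => ht (O.ex c n hc.1))
      exact ⟨S, τ, s0.up (pre_app _ _), (lift V Z K X k O n ρ L {none} S S τ).2.1 f0 (Or.inl rfl)⟩
    · obtain ⟨S, τ, s1, f1⟩ := u1 _ _ L inv.right_none h1
      exact ⟨S, τ, s1.up (pre_app _ _), (lift V Z K X k O n ρ L ∅ S S τ).1 f1⟩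

end Pool.Agent.MP_da1f04_co.R91
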