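import Pool.Agent.MP_da1f04_co.R91.Basic

/-! Gadgets with incomparable anchors are compatible. -/

set_option autoImplicit false

namespace Pool.Agent.MP_da1f04_co.R91

open Set Function I91

namespace Cross

/-- A node left to the side `false` lies strictly above `m`, or at `m`, or below the side `d`. -/
theorem pos {n m w : Nd} {d : Bool} (h : n ++ [false] <+: w) (h' : m ++ [d] <+: w) :
    m = n ∨ n ++ [false] <+: m ∨ m ++ [d] <+: n := by
  rcases pre_or_app ((pre_app n false).trans h) h' with e | e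
  · rcases pre_cases e with e | e | e
    · exact Or.inl e
    · exact Or.inr (Or.inl e)
    · exact (not_both (e.trans ((pre_app _ _).trans h')) h).elim
  · exact Or.inr (Or.inr e)

/-- Two paths in the given positions separate at a known node or hang at the same node. -/
theorem sep {m p p' : Nd} {W W' : Nd → Prop}
    (h : m ++ [false] <+: p ∨ ∃ n, n ++ [false] <+: m ∧ n ++ [true] <+: p ∧ W n)
    (h' : m ++ [true] <+: p' ∨ ∃ n, n ++ [false] <+: m ∧ n ++ [true] <+: p' ∧ W' n) :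
    (∃ r, r ++ [false] <+: p ∧ r ++ [true] <+: p' ∧ (r = m ∨ W' r)) ∨
    (∃ r, r ++ [true] <+: p ∧ r ++ [false] <+: p' ∧ W r) ∨
    ∃ n, n ++ [false] <+: m ∧ n ++ [true] <+: p ∧ W n ∧ W' n := by
  rcases h with h | ⟨n, a1, a2, a3⟩ <;> rcases h' with h' | ⟨n', b1, b2, b3⟩
  · exact Or.inl ⟨m, h, h', Or.inl rfl⟩
  · exact Or.inl ⟨n', b1.trans ((pre_app _ _).trans h), b2, Or.inr b3⟩
  · exact Or.inr (Or.inl ⟨n, a2, a1.trans ((pre_app _ _).trans h'), a3⟩)
  · rcases pos a1 b1 with e | e | e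
    · exact Or.inr (Or.inr ⟨n, a1, a2, a3, e ▸ b3⟩)
    · exact Or.inr (Or.inl ⟨n, a2, e.trans ((pre_app _ _).trans b2), a3⟩)
    · exact Or.inl ⟨n', e.trans ((pre_app _ _).trans a2), b2, Or.inr b3⟩

end Cross

open R91.Cross in
theorem cross : CrossSt := by
  intro V Z X k O S S' τ τ' w w' m hT hT' hw hw' hm
  have P : ∀ x ∈ S, m ++ [false] <+: X.lam x ∨ ∃ n, n ++ [false] <+: m ∧
      n ++ [true] <+: X.lam x ∧ ∃ y ∈ S, X.tg y n ∧ τ y = n := fun x hx => by
    rcases hT x hx with h | ⟨n, h1, h2, y, h3, h4, h5⟩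
    · exact Or.inl (hw.trans h)
    · rcases pos h1 hw with e | e | e
      · obtain ⟨c, hc⟩ := O.tgo y n h4
        exact (hm y h3 c (e ▸ hc)).elim
      · exact Or.inr ⟨n, e, h2, y, h3, h4, h5⟩
      · exact Or.inl (e.trans ((pre_app _ _).trans h2))
  have P' : ∀ x ∈ S', m ++ [true] <+: X.lam x ∨ ∃ n, n ++ [false] <+: m ∧
      n ++ [true] <+: X.lam x ∧ ∃ y ∈ S', X.tg y n ∧ τ' y = n := fun x hx => by
    rcases hT' x hx with h | ⟨n, h1, h2, h3⟩
    · exact Or.inl (hw'.trans h)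
    · rcases pos h1 hw' with e | e | e
      · exact (not_both hw' (e ▸ h1)).elim
      · exact Or.inr ⟨n, e, h2, h3⟩
      · exact Or.inl (e.trans ((pre_app _ _).trans h2))
  have A : ∀ i n, m.length - n.length = i → n ++ [false] <+: m →
      (∃ y ∈ S, X.tg y n ∧ τ y = n) → (∃ y ∈ S', X.tg y n ∧ τ' y = n) → False := by
    intro i
    induction i using Nat.strong_induction_on with | h i ih
    rintro n hi hn ⟨y, h1, h2, -⟩ ⟨y', h3, h4, -⟩
    have e := (O.tgs y y' n h2 h4).1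
    rcases sep (P y h1) (P' y' h3) with ⟨r, a1, a2, -⟩ | ⟨r, a1, a2, -⟩ | ⟨r, a1, a2, a3, a4⟩
    · exact not_both a2 (e ▸ a1)
    · exact not_both a1 (e ▸ a2)
    · rcases pos a1 hn with b | b | b
      · exact not_both a2 (b ▸ O.tgp h2)
      · exact not_both a2 (b.trans ((pre_app _ _).trans (O.tgp h2)))
      · refine ih _ ?_ r rfl a1 a3 a4
        have c1 := a1.length_le
        have c2 := b.length_le
        simp only [List.length_append, List.length_singleton] at c1 c2
        omega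
  intro x hx x' hx'
  rcases sep (P x hx) (P' x' hx') with ⟨r, a1, a2, a3⟩ | ⟨r, a1, a2, a3⟩ | ⟨r, a1, -, a3, a4⟩
  · refine ⟨fun e => not_both a2 (e ▸ a1), fun t ht => ht.elim
      (fun h => (not_swap a1 a2 h.2.1 h.2.2).elim) fun h => ?_⟩
    obtain rfl := meet_unique a1 a2 h.2.2 h.2.1
    exact a3.elim (fun e => (hm x hx x' (e ▸ h)).elim) Or.inr
  · refine ⟨fun e => not_both a1 (e ▸ a2), fun t ht => ht.elim (fun h => ?_)
      fun h => (not_swap a2 a1 h.2.1 h.2.2).elim⟩
    obtain rfl := meet_unique a2 a1 h.2.2 h.2.1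
    exact Or.inl a3
  · exact (A _ r rfl a1 a3 a4).elim

end Pool.Agent.MP_da1f04_co.R91
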