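import Pool.Agent.MP_da1f04_co.R91.Comp

/-! Families of gadgets move up the tree. -/

set_option autoImplicit false

namespace Pool.Agent.MP_da1f04_co.R91

open Set Function I91

theorem meet_le (p w : Nd) : {m : Nd | m ++ [true] <+: p ∧ m ++ [false] <+: w}.ncard ≤ 1 :=
  (ncard_le_one ((finite_pre p).subset fun _ h => (pre_app _ _).trans h.1)).2
    fun _ h _ h' => meet_unique h.2 h.1 h'.2 h'.1

theorem Fam.congr {V Z K ι : Type} {X : Dat V Z} {s : Nd} {ρ : Nd → Option K}
    {L : Nd → Set (Option (K × Fin 3))} {j : ℕ} {S : ι → Set V} {τ τ' : V → Nd} {w : ι → Nd}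
    (h : Fam X s ρ L j S τ w) (e : ∀ x, s <+: X.lam x → τ' x = τ x) : Fam X s ρ L j S τ' w :=
  have e' : ∀ i, ∀ x ∈ S i, τ' x = τ x := fun i x hx => e x ((h.str i).1 x hx)
  ⟨fun i => (h.str i).congr (e' i), fun i => (h.force i).sup subset_rfl (e' i), h.anc, h.anti,
    h.disj, fun i => (h.terr i).congr (e' i), h.dv⟩

theorem fam : FamSt := by
  intro V Z K X k O m ρ L Lm j
  have lf := lift V Z K X k O m ρ L Lm
  refine ⟨fun S τ h1 h2 => ⟨Unit, fun _ => S, τ, fun _ => m, inferInstance, by simp,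
    fun _ => h1, fun _ => h2, fun _ => List.prefix_rfl, fun _ _ _ => rfl, fun _ _ _ _ _ _ _ => rfl,
    fun _ x hx => Or.inl (h1.1 x hx), fun p => by simpa using meet_le p m⟩, ?_, ?_, ?_, ?_⟩
  · rintro ⟨ι, S, τ, w, h1, h2, F⟩
    exact ⟨ι, S, τ, w, h1, h2, fun i => (F.str i).up (pre_app _ _),
      fun i => (lf (S i) ∅ τ).1 (F.force i), fun i => (pre_app _ _).trans (F.anc i), F.anti,
      F.disj, F.terr, F.dv⟩
  · rintro ⟨ι, S, τ, w, h1, h2, F⟩ hn
    exact ⟨ι, S, τ, w, h1, h2, fun i => (F.str i).up (pre_app _ _),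
      fun i => (lf (S i) ∅ τ).2.1 (F.force i) (Or.inl hn), fun i => (pre_app _ _).trans (F.anc i),
      F.anti, F.disj, F.terr, F.dv⟩
  · rintro ⟨ι, S, τ₀, w, h1, h2, F₀⟩ S' τ' s1 f1
    let τ : V → Nd := fun x => if m ++ [true] <+: X.lam x then τ' x else τ₀ x
    have F := F₀.congr (τ' := τ) fun x hx => if_neg fun h => not_both h hx
    have e1 : ∀ x ∈ S', τ x = τ' x := fun x hx => if_pos (s1.1 x hx)
    let P : ι → Prop := fun i => ∃ x ∈ S i, X.tg x m ∧ τ x = m
    have key : ∀ i, Str X m (S i ∪ {y | y ∈ S' ∧ P i}) τ ∧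
        Force X m ρ L (S i ∪ {y | y ∈ S' ∧ P i}) τ := fun i => by
      by_cases h : P i
      · simp only [h, and_true, ofPred_mem_eq]
        exact (lf (S i) S' τ).2.2 (F.str i) (F.force i) h (s1.congr e1)
          fun t d h => (f1 t d h).sup subset_rfl e1
      · simp only [h, and_false, ofPred_false, union_empty]
        exact ⟨(F.str i).up (pre_app _ _), (lf (S i) ∅ τ).2.1 (F.force i) (Or.inr h)⟩
    refine ⟨ι, fun i => S i ∪ {y | y ∈ S' ∧ P i}, τ, w, h1, h2, fun i => (key i).1,
      fun i => (key i).2, fun i => (pre_app _ _).trans (F.anc i), F.anti, ?_, ?_, F.dv⟩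
    · rintro i i' x (hx | hx) y (hy | hy) e
      · exact F.disj i i' x hx y hy e
      · exact (not_both (s1.1 y hy.1) (e ▸ (F.str i).1 x hx)).elim
      · exact (not_both (s1.1 x hx.1) (e ▸ (F.str i').1 y hy)).elim
      · obtain ⟨u, u1, u2, -⟩ := hx.2
        obtain ⟨v, v1, v2, -⟩ := hy.2
        exact F.disj i i' u u1 v v1 (O.tgs u v m u2 v2).1
    · rintro i x (hx | hx)
      · exact (F.terr i x hx).imp_right fun ⟨n, a1, a2, y, a3, a4⟩ => ⟨n, a1, a2, y, Or.inl a3, a4⟩
      · exact Or.inr ⟨m, F.anc i, s1.1 x hx.1, hx.2.imp fun y hy => ⟨Or.inl hy.1, hy.2⟩⟩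
  · rintro ⟨ι, S, τ₀, w, h1, h2, F₀⟩ hn ⟨ι', S', τ₁, w', h3, h4, F₁⟩
    let τ : V → Nd := fun x => if m ++ [true] <+: X.lam x then τ₁ x else τ₀ x
    have F := F₀.congr (τ' := τ) fun x hx => if_neg fun h => not_both h hx
    have F' := F₁.congr (τ' := τ) fun x hx => if_pos hx
    refine ⟨ι ⊕ ι', Sum.elim S S', τ, Sum.elim w w', inferInstance,
      by rw [Nat.card_sum, pow_succ]; omega, ?_, ?_, ?_, ?_, ?_, ?_, fun p => ?_⟩
    · rintro (i | i)
      exacts [(F.str i).up (pre_app _ _), (F'.str i).up (pre_app _ _)]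
    · rintro (i | i)
      exacts [(lf (S i) ∅ τ).2.1 (F.force i) (Or.inl hn), (lf (S' i) ∅ τ).1 (F'.force i)]
    · rintro (i | i)
      exacts [(pre_app _ _).trans (F.anc i), (pre_app _ _).trans (F'.anc i)]
    · rintro (i | i) (i' | i') e
      · exact congrArg _ (F.anti i i' e)
      · exact (not_both (F'.anc i') ((F.anc i).trans e)).elim
      · exact (not_both ((F'.anc i).trans e) (F.anc i')).elim
      · exact congrArg _ (F'.anti i i' e)
    · rintro (i | i) (i' | i') x hx y hy e
      · exact congrArg _ (F.disj i i' x hx y hy e)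
      · exact (not_both ((F'.str i').1 y hy) (e ▸ (F.str i).1 x hx)).elim
      · exact (not_both ((F'.str i).1 x hx) (e ▸ (F.str i').1 y hy)).elim
      · exact congrArg _ (F'.disj i i' x hx y hy e)
    · rintro (i | i)
      exacts [F.terr i, F'.terr i]
    · have fin : ∀ Q : Nd → Prop, {n | n ++ [true] <+: p ∧ Q n}.Finite := fun Q =>
        (finite_pre p).subset fun _ h => (pre_app _ _).trans h.1
      by_cases a : m ++ [true] <+: p
      · refine le_trans (ncard_le_ncard (t := insert m {n | n ++ [true] <+: p ∧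
          ∃ i, n ++ [false] <+: w' i}) ?_ ((fin _).insert m))
          ((ncard_insert_le _ _).trans (Nat.succ_le_succ (F'.dv p)))
        rintro n ⟨b, i | i, c⟩
        · exact Or.inl (meet_unique c b (F.anc i) a)
        · exact Or.inr ⟨b, i, c⟩
      by_cases a' : m ++ [false] <+: p
      · refine le_trans (ncard_le_ncard ?_ (fin _)) ((F.dv p).trans (Nat.le_succ _))
        rintro n ⟨b, i | i, c⟩
        · exact ⟨b, i, c⟩
        · exact (not_swap a' (F'.anc i) b c).elim
      · refine le_trans (ncard_le_ncard ?_ (fin _)) ((meet_le p m).trans (by omega))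
        have key : ∀ n q, n ++ [true] <+: p → n ++ [false] <+: q → m <+: q →
            n ++ [false] <+: m := fun n q b c d => (pre_or_app d c).resolve_left fun e => by
          rcases pre_cases e with e | e | e
          · exact a (e ▸ b)
          · exact a' (e.trans ((pre_app _ _).trans b))
          · exact a (e.trans ((pre_app _ _).trans b))
        rintro n ⟨b, i | i, c⟩
        · exact ⟨b, key n _ b c ((pre_app _ _).trans (F.anc i))⟩
        · exact ⟨b, key n _ b c ((pre_app _ _).trans (F'.anc i))⟩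

end Pool.Agent.MP_da1f04_co.R91
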