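import Pool.Agent.MP_da1f04_co.R91.Br

/-! The theorem from its steps. -/

set_option autoImplicit false

namespace Pool.Agent.MP_da1f04_co.R91

open Set Function I91

theorem exists_budget (k n : ℕ) : ∃ D, n * (2 * (n * n * (k * (D + 1) + 1)) + 1) ≤ 2 ^ D := by
  have key : ∀ D, n * (2 * (n * n * (k * (D + 1) + 1)) + 1) ≤
      n * (2 * (n * n * (k + 1)) + 1) * (D + 1) := fun D => by
    rw [mul_assoc n (2 * (n * n * (k + 1)) + 1)]
    exact Nat.mul_le_mul_left _ (by nlinarith [Nat.zero_le (n * n * D)])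
  generalize n * (2 * (n * n * (k + 1)) + 1) = c at key
  refine ⟨2 * c + 2, le_trans (key _) ?_⟩
  have h : c < 2 ^ c := Nat.lt_two_pow_self
  have h2 : 2 * c + 2 ≤ 2 ^ (c + 1) := by
    rw [pow_succ]
    omega
  rw [show 2 ^ (2 * c + 2) = 2 ^ (c + 1) * 2 ^ (c + 1) by ring]
  nlinarith

theorem rnd (h1 : EStepSt) (h2 : ColSt) (h3 : OffSt) : RndSt := by
  intro k g N
  obtain ⟨D, hD⟩ := exists_budget k (Nat.card (Fin (N + 1)))
  obtain ⟨n, hn⟩ := h2 (Fin (N + 1) × Fin 3) k g D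
  obtain ⟨n', hn'⟩ := h3 k g n
  refine ⟨n', fun V _ G lam M nc => by_contra fun h => nc (hn' V G lam M fun tl tg O => ?_)⟩
  refine hn V G lam tl tg M O (fun _ => none) (fun _ => ∅) (fun _ => 0) (by_contra fun ns => h ?_)
  set X : Dat V (Nd × Set V) := ⟨G, lam, tl, tg, zone G lam, Prod.fst⟩ with hX
  have key : ∀ s, Un X (Fin (N + 1)) D s ∧ En X (Fin (N + 1)) D s := fun s => by
    induction s using tree_ind lam with
    | h0 s h =>
      exact ⟨fun a ρ L _ ns => (ns (O.triv h)).elim, fun a ρ L _ => ⟨∅, fun _ => [], str_empty,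
        fun t d ns => (ns (O.triv fun x e => h x ((pre_app _ _).trans e))).elim⟩⟩
    | h1 s ih =>
      have e := h1 V _ _ X k O D s hD fun s' e => ih s' ((pre_app _ _).trans e)
        (ne_of_app_pre e).symm
      exact ⟨uStep V _ _ X k O D s (ih _ (pre_app _ _) (by simp)).1
        (ih _ (pre_app _ _) (by simp)).1 e, e⟩
  obtain ⟨S, τ, s1, f1⟩ := (key []).1 (fun _ => none) (fun _ => none) (fun _ => ∅)
    (fun x => by simp [got_nil]) ns
  refine ⟨S, τ, s1.2.1, fun c hc x hx m o => (s1.2.2 c hc x hx m o).imp fun y hy =>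
    ⟨hy.1, O.tgo y m hy.2.1, hy.2.2⟩, fun ⟨φ⟩ => ?_⟩
  classical
  obtain ⟨x, -, e, -⟩ := f1 (fun u => if h : u ∈ S then (φ ⟨u, h⟩).castSucc else 0)
    (fun u a v b h => by
      simp only [dif_pos a, dif_pos b]
      exact fun e => φ.valid (v := ⟨u, a⟩) (w := ⟨v, b⟩) h (Fin.castSucc_injective _ e))
    fun x _ => by simp [got_nil]
  simp at e

theorem top (h1 : DerSt) (h2 : HtSt) (h3 : RedSt) (h4 : OneSt) (h5 : TinySt) (k : ℕ) {C : GClass}
    (hC : ChiBounded C) (N q : ℕ) : ∃ n, ∀ (U W : Type) (J : SimpleGraph U) (H : SimpleGraph W),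
      Cl C k W H → Nonempty (J ↪g H) → (¬ ∃ (Y : Type) (F : SimpleGraph Y),
        Cl Tiny (2 ^ 2 ^ (2 * k * (k + 1)) + 1) Y F ∧ F.CliqueFree 3 ∧ ¬ F.Colorable N ∧
          Nonempty (F ↪g J)) → J.CliqueFree (q + 2) → J.Colorable n := by
  obtain ⟨f, hf⟩ := hC
  induction q with
  | zero =>
    refine ⟨1, fun U W J H _ _ _ cf => Kill.colorable ⟨fun _ => 0, fun u v h _ => ?_⟩⟩
    rw [SimpleGraph.cliqueFree_two.1 cf] at h
    exact h
  | succ q ih =>
    obtain ⟨c', hc⟩ := ih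
    obtain ⟨n, hn⟩ := h4 k (2 ^ (2 * k * (k + 1))) N
    obtain ⟨n', hn'⟩ := h3 k (2 * k * (k + 1)) (f (q + 2)) (c' + 1) n
    refine ⟨n', fun U W J H cl ⟨e⟩ free cf => ?_⟩
    have := cl.finite
    have : Finite U := Finite.of_injective e e.injective
    obtain ⟨lam, D, cs, col, ht⟩ := h2 U W J (q + 2) k _ e
      (h1 C f hf k (q + 2) U W J H e cl (by omega) cf)
    refine hn' U J (q + 2) lam D cs col ht (fun S hS => ?_) cf fun V' g hg M => ?_
    · classical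
      obtain ⟨φ⟩ := hc S W (J.induce S) H cl ⟨e.comp (SimpleGraph.Embedding.induce S)⟩
        (fun ⟨Y, F, a1, a2, a3, ⟨a⟩⟩ =>
          free ⟨Y, F, a1, a2, a3, ⟨(SimpleGraph.Embedding.induce S).comp a⟩⟩)
        ((SimpleGraph.cliqueFree_induce_iff J S _).2 hS)
      refine ⟨fun u => if h : u ∈ S then (φ ⟨u, h⟩).castSucc else 0, fun u v ⟨a, b, h⟩ => ?_⟩
      simp only [dif_pos a, dif_pos b]
      exact fun e => φ.valid (v := ⟨u, a⟩) (w := ⟨v, b⟩) h (Fin.castSucc_injective _ e)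
    · have : Finite V' := Finite.of_injective g hg
      by_contra nc
      obtain ⟨V'', g', a1, a2, a3⟩ := hn V' _ _ M nc
      have a4 : Injective g' := a1.of_comp
      have : Finite V'' := Finite.of_injective g' a4
      obtain ⟨a5, a6⟩ := h5 V'' _ _ _ a1 a2
      exact free ⟨V'', _, a5, a6, a3, ⟨(SimpleGraph.Embedding.comap ⟨g, hg⟩ J).comp
        (SimpleGraph.Embedding.comap ⟨g', a4⟩ _)⟩⟩

theorem final (h1 : DerSt) (h2 : HtSt) (h3 : RedSt) (h4 : OneSt) (h5 : TinySt) (k : ℕ) :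
    ∃ k', ∀ C : GClass, ChiBounded C → ∀ q N : ℕ, ∃ n, ∀ (U W : Type) (J : SimpleGraph U)
      (H : SimpleGraph W), Cl C k W H → Nonempty (J ↪g H) → J.CliqueFree q → ¬ J.Colorable n →
      ∃ (Y : Type) (F : SimpleGraph Y), Cl Tiny k' Y F ∧ F.CliqueFree 3 ∧ ¬ F.Colorable N ∧
        Nonempty (F ↪g J) :=
  ⟨_, fun _ hC q N => (top h1 h2 h3 h4 h5 k hC N q).imp fun _ h U W J H a1 a2 a3 a4 =>
    by_contra fun a5 => a4 (h U W J H a1 a2 a5 (a3.mono (by omega)))⟩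

end Pool.Agent.MP_da1f04_co.R91
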