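import Pool.Agent.MP_da1f04_co.R91.Basic

/-! Boundedly many systems of official edges cover the model. -/

set_option autoImplicit false

namespace Pool.Agent.MP_da1f04_co.R91

open Set Function I91

namespace OffP

variable {V : Type} {G : SimpleGraph V} {lam : V → Nd} {k g : ℕ} {c c' x : V} {m s s' : Nd}

/-- The vertex has an edge below the node. -/
def Op (G : SimpleGraph V) (lam : V → Nd) (c : V) (s : Nd) : Prop :=
  ∃ x t, s <+: t ∧ out G lam c x t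

theorem Op.pre (h : Op G lam c s) : s <+: lam c := by
  obtain ⟨_, _, h1, h2⟩ := h
  exact h1.trans h2.pre

theorem Op.up (h : Op G lam c s') (hs : s <+: s') : Op G lam c s := by
  obtain ⟨x, t, h1, h2⟩ := h
  exact ⟨x, t, hs.trans h1, h2⟩

theorem k0_lam (e : k0 G lam c = k0 G lam c') : lam c = lam c' := congrArg Prod.fst e

theorem k0_past (e : k0 G lam c = k0 G lam c') (hs : s <+: lam c) :
    past G lam c s = past G lam c' s :=
  past_congr hs ((congrArg Prod.snd e).trans (by rw [k0_lam e]; rfl))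

theorem k0_out (e : k0 G lam c = k0 G lam c') (h : out G lam c x m) : out G lam c' x m :=
  ⟨(k0_past e h.2.1 ▸ h.mem : x ∈ past G lam c' (m ++ [true])).1, k0_lam e ▸ h.2.1, h.2.2⟩

theorem k0_op (e : k0 G lam c = k0 G lam c') (h : Op G lam c s) : Op G lam c' s := by
  obtain ⟨x, t, h1, h2⟩ := h
  exact ⟨x, t, h1, k0_out e h2⟩

theorem num {α : Type} {S : Set α} (hS : S.Finite) {n : ℕ} (h : S.ncard ≤ n) :
    ∃ f : α → Fin (n + 1), InjOn f S := by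
  obtain ⟨f, -, hf⟩ := hS.exists_injOn_of_encard_le (t := (univ : Set (Fin (n + 1)))) (by
    rw [← hS.cast_ncard_eq, ← finite_univ.cast_ncard_eq, ncard_univ]
    exact_mod_cast (by simpa using h.trans (Nat.le_succ n)))
  exact ⟨f, hf⟩

/-- Zones that are alive at the birth of another zone get another colour. -/
theorem zones [Finite V] (M : Model G lam k g) :
    Kill (fun u v => zone G lam u ≠ zone G lam v ∧ (zone G lam v).1 <+: (zone G lam u).1 ∧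
      (zone G lam v).2.Nonempty ∧ Op G lam v (zone G lam u).1) (2 * g + 1) := by
  refine Kill.outdeg (zone G lam) g (fun u v h => h.1) fun a => ?_
  refine M.few (s := a.1) _ _ ?_ ?_
  · rintro v ⟨u, h, rfl⟩
    exact h.2.2.2
  · rintro v ⟨u, h, rfl⟩ v' ⟨u', h', e'⟩ e
    exact zone_congr h.2.2.2.pre (e' ▸ h'.2.2.2.pre) e (h.2.2.1.mono (past_mono h.2.1))

/-- The last edges of the vertices. -/
theorem last [Finite V] (M : Model G lam k g) :
    Kill (fun c x => ∃ t, out G lam c x t ∧ ¬ Op G lam c (t ++ [true])) (2 * k + 1) := by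
  refine Kill.outdeg (k0 G lam) k (fun u v ⟨t, h, _⟩ e => h.lam_ne (k0_lam e)) fun a => ?_
  rcases eq_empty_or_nonempty {v | ∃ u, (∃ t, out G lam u v t ∧ ¬ Op G lam u (t ++ [true])) ∧
    k0 G lam u = a} with h | ⟨v₀, u₀, ⟨t₀, h1, h2⟩, h3⟩
  · simp [h]
  refine M.heads (t := t₀) _ _ (fun v ⟨u, ⟨t, h4, h5⟩, h6⟩ => ⟨u, ?_⟩) fun _ _ h => h
  have e : k0 G lam u = k0 G lam u₀ := h6.trans h3.symm
  have h7 := k0_out e.symm h1
  have a1 : t₀ <+: t := (pre_or_app h7.pre h4.2.1).resolve_right fun h => h5 ⟨v₀, t₀, h, h7⟩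
  have a2 : t <+: t₀ := (pre_or_app h4.pre h7.2.1).resolve_right fun h =>
    h2 ⟨v, t, h, k0_out e h4⟩
  rwa [pre_antisymm a1 a2]

/-- The edges of one system. -/
structure E (G : SimpleGraph V) (lam : V → Nd) {A B C : Type} (ψ : V → A)
    (n1 : Nd → Nd × Set V → B) (n2 : Nd → Set V → C) (i : A × B × C) (c x : V) (m : Nd) :
    Prop where
  pc : ψ c = i.1
  px : ψ x = i.1
  op : Op G lam c (m ++ [true])
  ou : out G lam c x m
  e1 : n1 m (k0 G lam x) = i.2.1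
  e2 : n2 m (past G lam c (m ++ [true])) = i.2.2

theorem system [Finite V] (M : Model G lam k g) {A B C : Type} (ψ : V → A)
    (n1 : Nd → Nd × Set V → B) (n2 : Nd → Set V → C)
    (hψ : ∀ u v, zone G lam u ≠ zone G lam v ∧ (zone G lam v).1 <+: (zone G lam u).1 ∧
      (zone G lam v).2.Nonempty ∧ Op G lam v (zone G lam u).1 → ψ u ≠ ψ v)
    (h1 : ∀ m, InjOn (n1 m) (k0 G lam '' {x | ∃ c, out G lam c x m}))
    (h2 : ∀ m, InjOn (n2 m) ((fun c => past G lam c (m ++ [true])) ''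
      {c | ∃ x t, m ++ [true] <+: t ∧ out G lam c x t})) (i : A × B × C) :
    Off ⟨G, lam, fun c m => ∃ x, E G lam ψ n1 n2 i c x m, fun x m => ∃ c, E G lam ψ n1 n2 i c x m,
      zone G lam, Prod.fst⟩ k := by
  have kk : ∀ {c x c' x' m}, E G lam ψ n1 n2 i c x m → E G lam ψ n1 n2 i c' x' m →
      k0 G lam x = k0 G lam x' := fun h h' =>
    h1 _ ⟨_, ⟨_, h.ou⟩, rfl⟩ ⟨_, ⟨_, h'.ou⟩, rfl⟩ (h.e1.trans h'.e1.symm)
  have pp : ∀ {c x c' x' m}, E G lam ψ n1 n2 i c x m → E G lam ψ n1 n2 i c' x' m →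
      past G lam c (m ++ [true]) = past G lam c' (m ++ [true]) := fun h h' =>
    h2 _ ⟨_, h.op, rfl⟩ ⟨_, h'.op, rfl⟩ (h.e2.trans h'.e2.symm)
  have zm : ∀ {c x m}, E G lam ψ n1 n2 i c x m →
      (zone G lam c).1 <+: m ++ [true] ∧ (zone G lam c).2.Nonempty := fun h =>
    zone_min h.ou.2.1 ⟨_, h.ou.mem⟩
  refine ⟨fun m => M.heads (t := m) lam _ (fun _ h => h) fun _ _ e => k0_lam e, ?_, ?_, ?_, ?_, ?_,
    ?_, ?_, ?_, ?_, ?_⟩
  · rintro c m ⟨x, h⟩
    exact h.ou.2.1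
  · rintro x m ⟨c, h⟩
    exact ⟨c, h.ou⟩
  · rintro c m ⟨x, h⟩
    exact ⟨x, c, h⟩
  · rintro c x m ⟨x', h⟩ ⟨c', h'⟩
    exact (pp h' h ▸ h'.ou.mem : x ∈ past G lam c (m ++ [true])).1
  · rintro x x' m ⟨c, h⟩ ⟨c', h'⟩
    have e := kk h h'
    refine ⟨k0_lam e, ?_⟩
    rintro m' ⟨y, hy⟩
    exact ⟨y, h'.px, hy.px, k0_op e hy.op, k0_out e hy.ou, hy.e1,
      k0_past e hy.ou.2.1 ▸ hy.e2⟩
  · rintro c c' m m' ⟨x, h⟩ ⟨x', h'⟩ hm ⟨y, hy⟩
    have e := past_congr (hm.trans (pre_app _ _)) (pp h h')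
    exact ⟨y, h'.pc, hy.px, ⟨x', m, hm, h'.ou⟩,
      ⟨(e ▸ hy.ou.mem : y ∈ past G lam c' (m' ++ [true])).1, hm.trans h'.ou.pre, hy.ou.2.2⟩,
      hy.e1, e ▸ hy.e2⟩
  · rintro c c' m ⟨x, h⟩ ⟨x', h'⟩
    exact zone_congr h.ou.2.1 h'.ou.2.1 (pp h h') ⟨x, h.ou.mem⟩
  · rintro x m ⟨c, h⟩
    exact M.zone_deep h.ou
  · rintro c m ⟨x, h⟩
    exact (zm h).1
  · rintro c m c' m' ⟨x, h⟩ ⟨x', h'⟩ hm hb
    by_contra hne
    have e : ψ c = ψ c' := h.pc.trans h'.pc.symm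
    rcases pre_total (zm h).1 hb with a | a
    · exact hψ c' c ⟨Ne.symm hne, a, (zm h).2, h.op.up hb⟩ e.symm
    · exact hψ c c' ⟨hne, a, (zm h').2, x', m', (zm h).1.trans hm, h'.ou⟩ e

end OffP

open OffP in
theorem off : OffSt := by
  intro k g n
  refine ⟨(2 * g + 1) * ((2 * k + 1) * n ^ Nat.card (Fin (2 * g + 1) × Fin (k + 1) × Fin (g + 1))),
    fun V _ G lam M H => ?_⟩
  obtain ⟨ψ, hψ⟩ := zones M
  choose n1 h1 using fun m => num (toFinite _) (M.m1 m)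
  choose n2 h2 using fun m : Nd => num (toFinite _) (M.m3 (m ++ [true]))
  have K1 : Kill (fun u v => ψ u ≠ ψ v) (2 * g + 1) := ⟨ψ, fun _ _ h => h⟩
  have K3 := Kill.exists fun i => H _ _ (system M ψ n1 n2 hψ h1 h2 i)
  refine ((K1.or ((last M).or K3)).symm'.imp fun u v h => ?_).colorable
  have key : ∀ c x, Out G lam c x → ψ c ≠ ψ x ∨
      (∃ t, out G lam c x t ∧ ¬ Op G lam c (t ++ [true])) ∨
      ∃ i, ∃ m, (∃ x', E G lam ψ n1 n2 i c x' m) ∧ ∃ c', E G lam ψ n1 n2 i c' x m := by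
    rintro c x ⟨t, ht⟩
    by_cases e : ψ c = ψ x
    · by_cases o : Op G lam c (t ++ [true])
      · have hE : E G lam ψ n1 n2 (ψ x, n1 t (k0 G lam x), n2 t (past G lam c (t ++ [true])))
            c x t := ⟨e, rfl, o, ht, rfl, rfl⟩
        exact Or.inr (Or.inr ⟨_, t, ⟨x, hE⟩, c, hE⟩)
      · exact Or.inr (Or.inl ⟨t, ht, o⟩)
    · exact Or.inl e
  exact (M.m0 u v h).imp (key u v) (key v u)

end Pool.Agent.MP_da1f04_co.R91
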