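import Pool.Agent.MP_da1f04_co.R91.Basic

/-! Reduction to one target at each node. -/

set_option autoImplicit false

namespace Pool.Agent.MP_da1f04_co.R91

open Set Function I91

namespace One

variable {V : Type} {G : SimpleGraph V} {lam : V → Nd} {k g : ℕ}

theorem mono {k' : ℕ} (M : Model G lam k g) (h : k ≤ k') : Model G lam k' g :=
  ⟨M.m0, fun t => (M.m1 t).trans h, M.m2, M.m3⟩

theorem leaves [Finite V] (M : Model G lam k g) (t : Nd) :
    (lam '' {x | ∃ c, out G lam c x t}).ncard ≤ k :=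
  M.heads lam _ (fun _ h => h) fun _ _ e => congrArg Prod.fst e

/-- One target is removed at each node. -/
theorem step [Finite V] (M : Model G lam (k + 2) g) {S : Set V} {τ : V → Nd} (hi : InjOn lam S)
    (hw : ∀ c ∈ S, ∀ x ∈ S, ∀ m, out G lam c x m → ∃ y ∈ S, (∃ c', out G lam c' y m) ∧ τ y = m)
    {n : ℕ} (hn : ¬ (G.induce S).Colorable ((2 * (k + 2) + 1) * n)) :
    ∃ (W : Type) (_ : Finite W) (f : W → V), Model (G.comap f) (lam ∘ f) (k + 1) g ∧
      ¬ (G.comap f).Colorable n := by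
  have hj : ∀ x y : S, lam x = lam y → x = y := fun x y e => Subtype.ext (hi x.2 y.2 e)
  obtain ⟨φ, hφ⟩ : Kill (fun y x : S => y ≠ x ∧ ∃ c, out G lam c x (τ y)) (2 * (k + 2) + 1) := by
    refine Kill.outdeg id _ (fun u v h => h.1) fun a => le_trans ?_ (leaves M (τ a))
    rw [image_id]
    refine ncard_le_ncard_of_injOn (fun x => lam x.1) ?_ (fun x _ y _ => hj x y) (toFinite _)
    rintro x ⟨u, h, rfl⟩
    exact ⟨x, h.2, rfl⟩
  obtain ⟨a, ha⟩ : ∃ a, ¬ Kill (fun u v : {v // φ v = a} => (G.induce S).Adj u v) n := by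
    by_contra hc
    exact hn (Kill.refine φ fun a => not_not.1 fun h => hc ⟨a, h⟩).colorable
  refine ⟨{v // φ v = a}, inferInstance, fun v => v.1.1, ?_, fun h => ha (kill_of_colorable h)⟩
  have M' := M.comap fun v : {v // φ v = a} => v.1.1
  refine ⟨M'.m0, fun t => (ncard_image_le (toFinite _)).trans ?_, M'.m2, M'.m3⟩
  rcases eq_empty_or_nonempty {x : {v // φ v = a} | ∃ c, out (G.comap fun v => v.1.1)
    (lam ∘ fun v => v.1.1) c x t} with h | ⟨x0, c0, h0⟩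
  · rw [h, ncard_empty]
    exact Nat.zero_le _
  obtain ⟨y, hy, h1, rfl⟩ := hw _ c0.1.2 _ x0.1.2 t h0
  by_cases e : φ ⟨y, hy⟩ = a
  · refine ((ncard_le_one_iff_subsingleton.2 ?_)).trans (Nat.le_add_left _ _)
    have key : ∀ x : {v // φ v = a}, (∃ c, out G lam c x.1 (τ y)) → ⟨y, hy⟩ = x.1 := fun x h =>
      not_not.1 fun h' => hφ ⟨y, hy⟩ x.1 ⟨h', h⟩ (e.trans x.2.symm)
    rintro x ⟨c, h⟩ x' ⟨c', h'⟩
    exact Subtype.ext ((key x ⟨_, h⟩).symm.trans (key x' ⟨_, h'⟩))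
  · have h2 := ncard_sdiff_singleton_lt_of_mem (s := lam '' {x | ∃ c, out G lam c x (τ y)})
      ⟨y, h1, rfl⟩ (toFinite _)
    refine le_trans (ncard_le_ncard_of_injOn (fun x => lam x.1.1) ?_
      (fun x _ x' _ e => Subtype.ext (hj _ _ e)) (toFinite _))
      (Nat.le_of_lt_succ (h2.trans_le (leaves M _)))
    rintro x ⟨c, h⟩
    exact ⟨⟨_, ⟨_, h⟩, rfl⟩, fun e' => e (hj x.1 ⟨y, hy⟩ e' ▸ x.2)⟩

end One

theorem one (h : RndSt) : OneSt := by
  intro k g N
  have key : ∀ k : ℕ, ∃ n, ∀ (V : Type) [Finite V] (G : SimpleGraph V) (lam : V → Nd),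
      Model G lam (k + 1) g → ¬ G.Colorable n → ∃ (V' : Type) (f : V' → V), Injective (lam ∘ f) ∧
        Model (G.comap f) (lam ∘ f) 1 g ∧ ¬ (G.comap f).Colorable N := by
    intro k
    induction k with
    | zero =>
      obtain ⟨n, hn⟩ := h 1 g N
      refine ⟨n, fun V _ G lam M hc => ?_⟩
      obtain ⟨S, τ, h1, -, h3⟩ := hn V G lam M hc
      exact ⟨S, Subtype.val, fun x y e => Subtype.ext (h1 x.2 y.2 e), M.comap _, h3⟩
    | succ k ih =>
      obtain ⟨n1, ih⟩ := ih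
      obtain ⟨n, hn⟩ := h (k + 2) g ((2 * (k + 2) + 1) * n1)
      refine ⟨n, fun V _ G lam M hc => ?_⟩
      obtain ⟨S, τ, h1, h2, h3⟩ := hn V G lam M hc
      obtain ⟨W, _, f, M', h4⟩ := One.step M h1 h2 h3
      obtain ⟨V', f', a1, a2, a3⟩ := ih W _ _ M' h4
      exact ⟨V', f ∘ f', a1, a2, a3⟩
  obtain ⟨n, hn⟩ := key k
  exact ⟨n, fun V _ G lam M => hn V G lam (One.mono M (Nat.le_succ k))⟩

end Pool.Agent.MP_da1f04_co.R91
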