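import Pool.Agent.MP_da1f04_co.R91.Basic

/-! Operations on induced subgraphs that stay in the closure of the small graphs. -/

set_option autoImplicit false

namespace Pool.Agent.MP_da1f04_co.R91

open Set Function I91

namespace Ops

variable {U : Type} {J : SimpleGraph U} {k : ℕ} {a b : Set U}

theorem rng {a c : Set U} (h : a ⊆ c) (x : c) : x ∈ range (J.induceHomOfLE h) ↔ x.1 ∈ a :=
  ⟨by rintro ⟨y, rfl⟩; exact y.2, fun h => ⟨⟨_, h⟩, rfl⟩⟩

theorem glueOn (ha : Cl Tiny k a (J.induce a)) (hb : Cl Tiny k b (J.induce b))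
    (hk : (a ∩ b).ncard ≤ k) (no : ∀ x ∈ a, x ∉ b → ∀ y ∈ b, y ∉ a → ¬ J.Adj x y) :
    Cl Tiny k (a ∪ b : Set U) (J.induce (a ∪ b)) := by
  refine ha.glue' hb (J.induceHomOfLE subset_union_left) (J.induceHomOfLE subset_union_right)
    (fun x => by rw [rng, rng]; exact x.2) ?_ fun x hx y hy => ?_
  · rw [← ncard_image_of_injective _ Subtype.val_injective]
    refine le_of_eq_of_le (congrArg _ ?_) hk
    ext x
    simp only [mem_image, mem_inter_iff, rng]
    exact ⟨by rintro ⟨y, h, rfl⟩; exact h, fun h => ⟨⟨x, .inl h.1⟩, h, rfl⟩⟩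
  · rw [rng] at hx hy
    exact no _ (x.2.resolve_right hx) hx _ (y.2.resolve_left hy) hy

theorem substOn {v : U} (ha : Cl Tiny k a (J.induce a)) (hb : Cl Tiny k b (J.induce b))
    (h1 : v ∈ a) (h2 : v ∈ b) (h3 : ∀ x ∈ a, x ∈ b → x = v)
    (h4 : ∀ x ∈ a, ∀ y ∈ b, J.Adj x y ↔ J.Adj x v ∨ x = v ∧ J.Adj x y) :
    Cl Tiny k (a ∪ b : Set U) (J.induce (a ∪ b)) := by
  refine .subst _ _ {x | x.1 ∈ b} ⟨v, .inl h1⟩ h2 (fun x hx y hy => ?_)
    (ha.emb (J.induceHomOfLE subset_union_left) (Set.ext fun x => ?_))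
    (hb.emb (J.induceHomOfLE subset_union_right) (Set.ext fun x => rng _ x))
  · exact (h4 x.1 (x.2.resolve_right hx) y.1 hy).trans
      (or_iff_left fun h => hx (show x.1 ∈ b from h.1 ▸ h2))
  · rw [rng]
    refine ⟨fun h => ?_, ?_⟩
    · by_cases hx : x.1 ∈ b
      exacts [.inl (Subtype.ext (h3 _ h hx)), .inr hx]
    · rintro (rfl | h)
      exacts [h1, x.2.resolve_right h]

theorem pair (x y : U) : Cl Tiny k ({x, y} : Set U) (J.induce {x, y}) :=
  .base _ _ (toFinite _) (show Nat.card ({x, y} : Set U) ≤ 2 from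
    (Nat.card_coe_set_eq _).trans_le ((ncard_insert_le _ _).trans (by rw [ncard_singleton])))

theorem point (x : U) : Cl Tiny k ({x} : Set U) (J.induce {x}) :=
  pair_eq_singleton x ▸ pair x x

theorem twin {v w : U} (ha : Cl Tiny k a (J.induce a)) (hv : v ∈ a)
    (h : ∀ x ∈ a, J.Adj x w ↔ J.Adj x v) :
    Cl Tiny k (insert w a : Set U) (J.induce (insert w a)) := by
  by_cases hw : w ∈ a
  · rwa [insert_eq_of_mem hw]
  have e : a ∪ {w, v} = insert w a := by
    rw [union_insert, union_eq_left.2 (singleton_subset_iff.2 hv)]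
  refine e ▸ substOn ha (pair w v) hv (.inr rfl) ?_ ?_
  · rintro x hx (rfl | rfl)
    exacts [(hw hx).elim, rfl]
  · rintro x hx y (rfl | rfl)
    exacts [⟨fun h' => .inl ((h x hx).1 h'), fun h' => h'.elim (h x hx).2 And.right⟩,
      ⟨.inl, fun h' => h'.elim id And.right⟩]

theorem twins (hb : b.Finite) (ha : Cl Tiny k a (J.induce a))
    (h : ∀ w ∈ b, ∃ v ∈ a, ∀ x ∈ a ∪ b, J.Adj x w ↔ J.Adj x v) :
    Cl Tiny k (a ∪ b : Set U) (J.induce (a ∪ b)) := by
  induction b, hb using Set.Finite.induction_on with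
  | empty => rwa [union_empty]
  | @insert w b _ _ ih =>
    have hs : a ∪ b ⊆ a ∪ insert w b := union_subset_union_right _ (subset_insert _ _)
    obtain ⟨v, h1, h2⟩ := h w (.inl rfl)
    rw [union_insert]
    exact twin (ih fun u hu => let ⟨v, h3, h4⟩ := h u (.inr hu); ⟨v, h3, fun x hx => h4 x (hs hx)⟩)
      (.inl h1) fun x hx => h2 x (hs hx)

theorem indep (ha : a.Finite) (h : ∀ x ∈ a, ∀ y ∈ a, ¬ J.Adj x y) : Cl Tiny k a (J.induce a) := by
  rcases a.eq_empty_or_nonempty with rfl | ⟨v, hv⟩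
  · exact .base _ _ (toFinite _) (show Nat.card (∅ : Set U) ≤ 2 by simp)
  have e : {v} ∪ a = a := union_eq_right.2 (singleton_subset_iff.2 hv)
  exact e ▸ twins ha (point v) fun w hw => ⟨v, rfl, fun x hx =>
    iff_of_false (h x (e ▸ hx) w hw) (h x (e ▸ hx) v hv)⟩

theorem star {w : U} (ha : a.Finite) (h : ∀ x ∈ a, ∀ y ∈ a, ¬ J.Adj x y)
    (hw : ∀ x ∈ a, J.Adj w x) : Cl Tiny k (insert w a : Set U) (J.induce (insert w a)) := by
  rcases a.eq_empty_or_nonempty with rfl | ⟨v, hv⟩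
  · rw [insert_empty_eq]
    exact point w
  have e : {w, v} ∪ a = insert w a := by
    rw [insert_union, union_eq_right.2 (singleton_subset_iff.2 hv)]
  refine e ▸ twins ha (pair w v) fun u hu => ⟨v, .inr rfl, fun x hx => ?_⟩
  rw [e] at hx
  rcases hx with rfl | hx
  exacts [iff_of_true (hw u hu) (hw v hv), iff_of_false (h x hx u hu) (h x hx v hv)]

theorem stars {N : Set U} (hb : b.Finite) (ha : Cl Tiny k a (J.induce a)) (hN : N.Finite)
    (hk : N.ncard ≤ k) (hi : ∀ x ∈ N, ∀ y ∈ N, ¬ J.Adj x y)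
    (h : ∀ w ∈ b, w ∉ a → ∀ x ∈ a ∪ b, J.Adj w x → x ∈ a ∩ N) :
    Cl Tiny k (a ∪ b : Set U) (J.induce (a ∪ b)) := by
  induction b, hb using Set.Finite.induction_on with
  | empty => rwa [union_empty]
  | @insert w b hw _ ih =>
    have hs : a ∪ b ⊆ a ∪ insert w b := union_subset_union_right _ (subset_insert _ _)
    have h1 := ih fun u hu hu' x hx => h u (.inr hu) hu' x (hs hx)
    by_cases hwa : w ∈ a
    · rwa [union_insert, insert_eq_of_mem (mem_union_left _ hwa)]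
    have e : (a ∪ b) ∪ insert w {x | x ∈ a ∩ N ∧ J.Adj w x} = a ∪ insert w b := by
      rw [union_insert, union_insert, union_eq_left.2 fun x hx => mem_union_left _ hx.1.1]
    refine e ▸ glueOn h1 (star (hN.subset fun x hx => hx.1.2)
      (fun x hx y hy => hi x hx.1.2 y hy.1.2) fun x hx => hx.2)
      ((ncard_le_ncard ?_ hN).trans hk) ?_
    · rintro x ⟨hx, rfl | hx'⟩
      exacts [(hx.elim hwa hw).elim, hx'.1.2]
    · rintro x hx hx' y (rfl | hy) hy' h2
      exacts [hx' (.inr ⟨h y (.inl rfl) hwa x (hs hx) h2.symm, h2.symm⟩), hy' (.inl hy.1.1)]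

end Ops

theorem ops : OpsSt := fun _ _ _ =>
  ⟨fun _ => Ops.indep, fun _ _ => Ops.glueOn, fun _ _ => Ops.twins, fun _ _ _ => Ops.stars⟩

end Pool.Agent.MP_da1f04_co.R91
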