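import Pool.Agent.MP_da1f04_co.I91.Tools

/-! Definitions and statements of the steps for the extraction of triangle-free subgraphs. -/

set_option autoImplicit false

namespace Pool.Agent.MP_da1f04_co.R91

open Set Function I91

/-- A graph on the leaves of a tree with official tails, official targets, zones and births. -/
structure Dat (V Z : Type) where
  G : SimpleGraph V
  lam : V → Nd
  tl : V → Nd → Prop
  tg : V → Nd → Prop
  z : V → Z
  b : Z → Nd

/-- Binary trees of members of `I` below a node. -/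
def Rn (I : Set Nd) : ℕ → Nd → Prop
  | 0, s => ∃ m ∈ I, s <+: m
  | j + 1, s => ∃ m ∈ I, ∃ m' ∈ I, s <+: m ∧ s <+: m' ∧ Inc (m ++ [true]) (m' ++ [true]) ∧
      Rn I j (m ++ [true]) ∧ Rn I j (m' ++ [true])

/-- The option avoids the set. -/
def Av {α : Type} (o : Option α) (B : Set α) : Prop := ∀ p, o = some p → p ∉ B

section game

variable {V Z : Type} (X : Dat V Z)

/-- The facts about official tails and targets. -/
structure Off (k : ℕ) : Prop where
  few : ∀ m, (X.lam '' {x | ∃ c, out X.G X.lam c x m}).ncard ≤ k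
  tlp : ∀ c m, X.tl c m → m ++ [true] <+: X.lam c
  tgo : ∀ x m, X.tg x m → ∃ c, out X.G X.lam c x m
  ex : ∀ c m, X.tl c m → ∃ x, X.tg x m
  adj : ∀ c x m, X.tl c m → X.tg x m → X.G.Adj c x
  tgs : ∀ x x' m, X.tg x m → X.tg x' m → X.lam x = X.lam x' ∧ ∀ m', X.tl x m' → X.tl x' m'
  tls : ∀ c c' m m', X.tl c m → X.tl c' m → m' ++ [true] <+: m → X.tl c m' → X.tl c' m'
  zs : ∀ c c' m, X.tl c m → X.tl c' m → X.z c = X.z c'
  deep : ∀ x m, X.tg x m → m ++ [false] <+: X.b (X.z x)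
  born : ∀ c m, X.tl c m → X.b (X.z c) <+: m ++ [true]
  one : ∀ c m c' m', X.tl c m → X.tl c' m' → m ++ [true] <+: m' →
    X.b (X.z c') <+: m ++ [true] → X.z c = X.z c'

/-- The values that `x` has collected as a tail above `s`. -/
def got {α : Type} (a : Nd → Option α) (x : V) (s : Nd) : Set α :=
  {p | ∃ m, m ++ [true] <+: s ∧ X.tl x m ∧ a m = some p}

/-- The ignored times of a zone. -/
def Ign {α : Type} (a : Nd → Option α) (ζ : Z) : Set Nd :=
  {m | a m = none ∧ ∃ c, X.tl c m ∧ X.z c = ζ}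

/-- The promises `a` above `s` extend to a solution below `s` that respects the lists `L` and the
budgets `β` of the zones born so far; later zones have the budget `D`. -/
def Solv {α : Type} (D : ℕ) (s : Nd) (a : Nd → Option α) (L : Nd → Set (Option α))
    (β : Z → ℕ) : Prop :=
  ∃ a' : Nd → Option α, (∀ m, m ++ [true] <+: s → a' m = a m) ∧
    (∀ m x, s <+: m → X.tg x m → Av (a' m) (got X a' x (X.lam x))) ∧
    (∀ m x, m ++ [false] <+: s → X.tg x m → s <+: X.lam x →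
      ∃ o ∈ L m, Av o (got X a' x (X.lam x))) ∧
    (∀ ζ, X.b ζ <+: s → ¬ Rn (Ign X a' ζ) (β ζ) s) ∧
    ∀ ζ, s <+: X.b ζ → ¬ Rn (Ign X a' ζ) D (X.b ζ)

/-- The vertices with the leaf `n` respect the lists. -/
def Lf {α : Type} (n : Nd) (a : Nd → Option α) (L : Nd → Set (Option α)) : Prop :=
  ∀ m x, m ++ [false] <+: n → X.tg x m → X.lam x = n → ∃ o ∈ L m, Av o (got X a x n)

/-- The set lies below `s`, has distinct leaves, and the time of each edge is the tag of an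
official target. -/
def Str (s : Nd) (S : Set V) (τ : V → Nd) : Prop :=
  (∀ x ∈ S, s <+: X.lam x) ∧ InjOn X.lam S ∧
    ∀ c ∈ S, ∀ x ∈ S, ∀ m, out X.G X.lam c x m → ∃ y ∈ S, X.tg y m ∧ τ y = m

variable {K : Type}

/-- Every proper colouring that avoids the colours `ρ` violates a list at the tag of a vertex. -/
def Force (s : Nd) (ρ : Nd → Option K) (L : Nd → Set (Option (K × Fin 3))) (S : Set V)
    (τ : V → Nd) : Prop :=
  ∀ φ : V → K, (∀ x ∈ S, ∀ y ∈ S, X.G.Adj x y → φ x ≠ φ y) → (∀ x ∈ S, φ x ∉ got X ρ x s) →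
    ∃ x ∈ S, τ x ++ [false] <+: s ∧ X.tg x (τ x) ∧ none ∉ L (τ x) ∧
      ∃ d, some (φ x, d) ∉ L (τ x)

/-- At most one collected value lies in a row that is not avoided. -/
def Inv (s : Nd) (a : Nd → Option (K × Fin 3)) (ρ : Nd → Option K) : Prop :=
  ∀ x, {p | p ∈ got X a x s ∧ p.1 ∉ got X ρ x s}.Subsingleton

/-- Positions without a solution give gadgets. -/
def Un (K : Type) (D : ℕ) (s : Nd) : Prop :=
  ∀ (a : Nd → Option (K × Fin 3)) (ρ : Nd → Option K) (L : Nd → Set (Option (K × Fin 3))),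
    Inv X s a ρ → ¬ Solv X D s a L (fun _ => 0) → ∃ S τ, Str X s S τ ∧ Force X s ρ L S τ

/-- One gadget serves all the bad promises at `n`. -/
def En (K : Type) (D : ℕ) (n : Nd) : Prop :=
  ∀ (a : Nd → Option (K × Fin 3)) (ρ : Nd → Option K) (L : Nd → Set (Option (K × Fin 3))),
    Inv X n a ρ → ∃ S τ, Str X (n ++ [true]) S τ ∧ ∀ t d,
      ¬ Solv X D (n ++ [true]) (update a n (some (t, d))) L (fun _ => 0) →
      Force X (n ++ [true]) (update ρ n (some t)) L S τ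

/-- The members of `S` lie below `w` or hang at a witnessed node above `w`. -/
def Terr (S : Set V) (τ : V → Nd) (w : Nd) : Prop :=
  ∀ x ∈ S, w <+: X.lam x ∨ ∃ n, n ++ [false] <+: w ∧ n ++ [true] <+: X.lam x ∧
    ∃ y ∈ S, X.tg y n ∧ τ y = n

/-- A family of gadgets with anchors. -/
structure Fam (s : Nd) (ρ : Nd → Option K) (L : Nd → Set (Option (K × Fin 3))) (j : ℕ) {ι : Type}
    (S : ι → Set V) (τ : V → Nd) (w : ι → Nd) : Prop where
  str : ∀ i, Str X s (S i) τ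
  force : ∀ i, Force X s ρ L (S i) τ
  anc : ∀ i, s <+: w i
  anti : ∀ i i', w i <+: w i' → i = i'
  disj : ∀ i i', ∀ x ∈ S i, ∀ y ∈ S i', X.lam x = X.lam y → i = i'
  terr : ∀ i, Terr X (S i) τ (w i)
  dv : ∀ p : Nd, {m | m ++ [true] <+: p ∧ ∃ i, m ++ [false] <+: w i}.ncard ≤ j + 1

/-- There is a family with at least `2 ^ j` members. -/
def HasFam (s : Nd) (ρ : Nd → Option K) (L : Nd → Set (Option (K × Fin 3))) (j : ℕ) : Prop :=
  ∃ (ι : Type) (S : ι → Set V) (τ : V → Nd) (w : ι → Nd), Finite ι ∧ 2 ^ j ≤ Nat.card ι ∧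
    Fam X s ρ L j S τ w

end game

/-- Solutions on the two sides of a node compose. -/
def CompSt : Prop :=
  ∀ (V Z α : Type) (X : Dat V Z) (k : ℕ), Off X k → ∀ (D : ℕ) (n : Nd) (a : Nd → Option α)
    (L : Nd → Set (Option α)) (β β0 β1 : Z → ℕ) (Ln : Set (Option α)), (∀ ζ, β ζ ≤ D) →
    Lf X n a L → ((¬ ∃ x, X.tg x n) → Ln.Nonempty) →
    Solv X D (n ++ [false]) a (update L n Ln) β0 →
    (∀ o ∈ Ln, Solv X D (n ++ [true]) (update a n o) L β1) →
    (∀ ζ (I : Set Nd), X.b ζ <+: n → (∀ m ∈ I, ∃ c, X.tl c m ∧ X.z c = ζ) →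
      (n ∈ I → none ∈ Ln) → ¬ Rn I (β0 ζ) (n ++ [false]) → ¬ Rn I (β1 ζ) (n ++ [true]) →
      ¬ Rn I (β ζ) n) →
    Solv X D n a L β

/-- Gadgets on the two sides of a node combine. -/
def LiftSt : Prop :=
  ∀ (V Z K : Type) (X : Dat V Z) (k : ℕ), Off X k → ∀ (n : Nd) (ρ : Nd → Option K)
    (L : Nd → Set (Option (K × Fin 3))) (Ln : Set (Option (K × Fin 3))) (S S' : Set V)
    (τ : V → Nd),
    (Force X (n ++ [true]) (update ρ n none) L S τ → Force X n ρ L S τ) ∧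
    (Force X (n ++ [false]) ρ (update L n Ln) S τ →
      (none ∈ Ln ∨ ¬ ∃ x ∈ S, X.tg x n ∧ τ x = n) → Force X n ρ L S τ) ∧
    (Str X (n ++ [false]) S τ → Force X (n ++ [false]) ρ (update L n Ln) S τ →
      (∃ x ∈ S, X.tg x n ∧ τ x = n) → Str X (n ++ [true]) S' τ →
      (∀ t d, some (t, d) ∉ Ln → Force X (n ++ [true]) (update ρ n (some t)) L S' τ) →
      Str X n (S ∪ S') τ ∧ Force X n ρ L (S ∪ S') τ)

/-- The step for `Un`. -/
def UStepSt : Prop :=
  ∀ (V Z K : Type) (X : Dat V Z) (k : ℕ), Off X k → ∀ (D : ℕ) (n : Nd),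
    Un X K D (n ++ [false]) → Un X K D (n ++ [true]) → En X K D n → Un X K D n

/-- Families move up the tree. -/
def FamSt : Prop :=
  ∀ (V Z K : Type) (X : Dat V Z) (k : ℕ), Off X k → ∀ (m : Nd) (ρ : Nd → Option K)
    (L : Nd → Set (Option (K × Fin 3))) (Lm : Set (Option (K × Fin 3))) (j : ℕ),
    (∀ S τ, Str X m S τ → Force X m ρ L S τ → HasFam X m ρ L 0) ∧
    (HasFam X (m ++ [true]) (update ρ m none) L j → HasFam X m ρ L j) ∧
    (HasFam X (m ++ [false]) ρ (update L m Lm) j → none ∈ Lm → HasFam X m ρ L j) ∧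
    (HasFam X (m ++ [false]) ρ (update L m Lm) j → ∀ S τ, Str X (m ++ [true]) S τ →
      (∀ t d, some (t, d) ∉ Lm → Force X (m ++ [true]) (update ρ m (some t)) L S τ) →
      HasFam X m ρ L j) ∧
    (HasFam X (m ++ [false]) ρ (update L m Lm) j → none ∈ Lm →
      HasFam X (m ++ [true]) (update ρ m none) L j → HasFam X m ρ L (j + 1))

/-- The walk below `u` ends in a single vertex or branches. -/
def BrSt : Prop :=
  ∀ (V Z K : Type) [Finite V] [Nonempty K] (X : Dat V Z) (k : ℕ), Off X k → ∀ (D : ℕ) (u : Nd)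
    (To : V → Set K), (∀ s, u <+: s → Un X K D s ∧ En X K D s) →
    ∀ (s : Nd) (j : ℕ) (a : Nd → Option (K × Fin 3)) (ρ : Nd → Option K)
      (L : Nd → Set (Option (K × Fin 3))), u <+: s → j ≤ D → Inv X s a ρ →
      (∀ x t, t ∉ To x → ∃ d, (t, d) ∉ got X a x s) →
      (∀ x, ¬ X.b (X.z x) <+: u → got X a x s = ∅) →
      (∀ m, u <+: m → m ++ [false] <+: s → (L m).Nonempty) →
      ¬ Solv X D s a L (fun ζ => if X.b ζ <+: u then 0 else j) →
      (∃ x m, u <+: X.lam x ∧ m ++ [false] <+: u ∧ X.tg x m ∧ none ∉ L m ∧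
        ∀ t, t ∉ To x → ∃ d, some (t, d) ∉ L m) ∨ HasFam X s ρ L j

/-- Gadgets with incomparable anchors are compatible. -/
def CrossSt : Prop :=
  ∀ (V Z : Type) (X : Dat V Z) (k : ℕ), Off X k → ∀ (S S' : Set V) (τ τ' : V → Nd) (w w' m : Nd),
    Terr X S τ w → Terr X S' τ' w' → m ++ [false] <+: w → m ++ [true] <+: w' →
    (∀ x ∈ S, ∀ c, ¬ out X.G X.lam c x m) → ∀ x ∈ S, ∀ x' ∈ S', X.lam x ≠ X.lam x' ∧
      ∀ t, out X.G X.lam x x' t ∨ out X.G X.lam x' x t →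
        (∃ y ∈ S, X.tg y t ∧ τ y = t) ∨ ∃ y ∈ S', X.tg y t ∧ τ' y = t

/-- A transversal without conflicts. -/
def SelSt : Prop :=
  ∀ (R : Type) [Finite R] (ι : R → Type) (n C : ℕ) (cf : ∀ t t', ι t → ι t' → Prop),
    Nat.card R ≤ n → (∀ t, Finite (ι t) ∧ n * (2 * (n * n * C) + 1) ≤ Nat.card (ι t)) →
    (∀ t t' i, {i' | cf t t' i i'}.ncard ≤ C) →
    ∃ r : ∀ t, ι t, ∀ t t', t ≠ t' → ¬ cf t t' (r t) (r t')

/-- Large families have compatible members. -/
def UnionSt : Prop :=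
  ∀ (V Z K R : Type) [Finite V] [Finite R] (X : Dat V Z) (k : ℕ), Off X k → ∀ (n j : ℕ) (s : Nd)
    (ρ : R → Nd → Option K) (L : Nd → Set (Option (K × Fin 3))), Nat.card R ≤ n →
    n * (2 * (n * n * (k * (j + 1) + 1)) + 1) ≤ 2 ^ j → (∀ t, HasFam X s (ρ t) L j) →
    ∃ S τ, Str X s S τ ∧ ∀ t, Force X s (ρ t) L S τ

/-- The step for `En`. -/
def EStepSt : Prop :=
  ∀ (V Z K : Type) [Finite V] [Finite K] [Nonempty K] (X : Dat V Z) (k : ℕ), Off X k →
    ∀ (D : ℕ) (n : Nd), Nat.card K * (2 * (Nat.card K * Nat.card K * (k * (D + 1) + 1)) + 1) ≤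
      2 ^ D → (∀ s, n ++ [true] <+: s → Un X K D s ∧ En X K D s) → En X K D n

/-- A solution colours the official edges. -/
def ColSt : Prop :=
  ∀ (α : Type) [Finite α] (k g D : ℕ), ∃ n, ∀ (V : Type) [Finite V] (G : SimpleGraph V)
    (lam : V → Nd) (tl tg : V → Nd → Prop), Model G lam k g →
    Off ⟨G, lam, tl, tg, zone G lam, Prod.fst⟩ k → ∀ (a : Nd → Option α) L β,
    Solv ⟨G, lam, tl, tg, zone G lam, Prod.fst⟩ D [] a L β →
    Kill (fun c x => ∃ m, tl c m ∧ tg x m) n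

/-- Boundedly many systems of official edges cover the model. -/
def OffSt : Prop :=
  ∀ k g n : ℕ, ∃ n', ∀ (V : Type) [Finite V] (G : SimpleGraph V) (lam : V → Nd),
    Model G lam k g → (∀ tl tg : V → Nd → Prop, Off ⟨G, lam, tl, tg, zone G lam, Prod.fst⟩ k →
      Kill (fun c x => ∃ m, tl c m ∧ tg x m) n) → G.Colorable n'

/-- One round: a subgraph with distinct leaves in which the time of each edge is a tag. -/
def RndSt : Prop :=
  ∀ k g N : ℕ, ∃ n, ∀ (V : Type) [Finite V] (G : SimpleGraph V) (lam : V → Nd),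
    Model G lam k g → ¬ G.Colorable n → ∃ (S : Set V) (τ : V → Nd), InjOn lam S ∧
      (∀ c ∈ S, ∀ x ∈ S, ∀ m, out G lam c x m → ∃ y ∈ S, (∃ c', out G lam c' y m) ∧ τ y = m) ∧
      ¬ (G.induce S).Colorable N

/-- Reduction to one target at each node. -/
def OneSt : Prop :=
  ∀ k g N : ℕ, ∃ n, ∀ (V : Type) [Finite V] (G : SimpleGraph V) (lam : V → Nd),
    Model G lam k g → ¬ G.Colorable n → ∃ (V' : Type) (f : V' → V), Injective (lam ∘ f) ∧
      Model (G.comap f) (lam ∘ f) 1 g ∧ ¬ (G.comap f).Colorable N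

/-- Operations on induced subgraphs that stay in the closure. -/
def OpsSt : Prop :=
  ∀ (U : Type) (J : SimpleGraph U) (k : ℕ),
    (∀ a : Set U, a.Finite → (∀ x ∈ a, ∀ y ∈ a, ¬ J.Adj x y) → Cl Tiny k a (J.induce a)) ∧
    (∀ a b : Set U, Cl Tiny k a (J.induce a) → Cl Tiny k b (J.induce b) → (a ∩ b).ncard ≤ k →
      (∀ x ∈ a, x ∉ b → ∀ y ∈ b, y ∉ a → ¬ J.Adj x y) →
      Cl Tiny k (a ∪ b : Set U) (J.induce (a ∪ b))) ∧
    (∀ a b : Set U, b.Finite → Cl Tiny k a (J.induce a) →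
      (∀ w ∈ b, ∃ v ∈ a, ∀ x ∈ a ∪ b, J.Adj x w ↔ J.Adj x v) →
      Cl Tiny k (a ∪ b : Set U) (J.induce (a ∪ b))) ∧
    ∀ a b N : Set U, b.Finite → Cl Tiny k a (J.induce a) → N.Finite → N.ncard ≤ k →
      (∀ x ∈ N, ∀ y ∈ N, ¬ J.Adj x y) → (∀ w ∈ b, w ∉ a → ∀ x ∈ a ∪ b, J.Adj w x → x ∈ a ∩ N) →
      Cl Tiny k (a ∪ b : Set U) (J.induce (a ∪ b))

/-- Models with one target at each node lie in the closure of the small graphs. -/
def TinySt : Prop :=
  ∀ (V : Type) [Finite V] (G : SimpleGraph V) (lam : V → Nd) (g : ℕ), Injective lam →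
    Model G lam 1 g → Cl Tiny (2 ^ g + 1) V G ∧ G.CliqueFree 3

end Pool.Agent.MP_da1f04_co.R91
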