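import Pool.Agent.MP_da1f04_co.R91.Basic

/-! Models with one target at each node lie in the closure of the small graphs. -/

set_option autoImplicit false

namespace Pool.Agent.MP_da1f04_co.R91

open Set Function I91

namespace TinyP

variable {V : Type} {G : SimpleGraph V} {lam : V → Nd} {g : ℕ} {s s' t : Nd} {c u w x y : V}

variable (G lam) in
/-- The vertices below `s` that are open at `s` or have an empty past. -/
def act (s : Nd) : Set V :=
  {u | s <+: lam u ∧ ((∃ x t, s <+: t ∧ out G lam u x t) ∨ past G lam u s = ∅)}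

variable (G lam) in
/-- The targets at `s`. -/
def tgt (s : Nd) : Set V := {x | ∃ c, out G lam c x s}

theorem act_anti (h : s <+: s') : act G lam s' ⊆ act G lam s := fun _ hu =>
  ⟨h.trans hu.1, hu.2.imp (fun ⟨x, t, h1, h2⟩ => ⟨x, t, h.trans h1, h2⟩)
    fun e => subset_eq_empty (past_mono h) e⟩

theorem act_nil : act G lam [] = univ := eq_univ_of_forall fun _ =>
  ⟨List.nil_prefix, Or.inr (eq_empty_of_forall_notMem fun _ ⟨_, m, h, _⟩ => by simp at h)⟩

theorem tgt_past (M : Model G lam 1 g) (h : out G lam c x t) :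
    past G lam x (t ++ [false]) = ∅ := eq_empty_of_forall_notMem fun y hy => by
  obtain ⟨m, h1, h2⟩ := (mem_past h.2.2).1 hy
  exact not_app_pre (h1.trans (M.m2 c x y t m h h2))

/-- A target is active at all the nodes above the side of its time. -/
theorem tgt_act (M : Model G lam 1 g) (h : out G lam c x t) (hs : s <+: t ++ [false]) :
    x ∈ act G lam s := act_anti hs ⟨h.2.2, Or.inr (tgt_past M h)⟩

theorem tgt_sub [Finite V] (hl : Injective lam) (M : Model G lam 1 g) (s : Nd) :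
    (tgt G lam s).Subsingleton := fun x hx y hy =>
  hl (congrArg Prod.fst ((ncard_le_one (toFinite _)).1 (M.m1 s) _ ⟨x, hx, rfl⟩ _ ⟨y, hy, rfl⟩))

theorem time_below (h : out G lam c x t) (h1 : s <+: lam c) (h2 : s <+: lam x) : s <+: t :=
  (pre_or_app h2 h.2.2).resolve_right fun e => not_both h.2.1 (e.trans h1)

/-- A vertex that is no longer active sees only the target among the vertices below the node. -/
theorem closed (M : Model G lam 1 g) (hw : s <+: lam w) (h0 : w ∉ act G lam (s ++ [false]))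
    (h1 : w ∉ act G lam (s ++ [true])) (hx : s <+: lam x) (h : G.Adj w x) : x ∈ tgt G lam s := by
  rcases M.m0 w x h with ⟨t, o⟩ | ⟨t, o⟩
  · rcases pre_cases (time_below o hw hx) with e | e | e
    · exact ⟨w, e ▸ o⟩
    · exact (h0 ⟨e.trans o.pre, Or.inl ⟨x, t, e, o⟩⟩).elim
    · exact (h1 ⟨e.trans o.pre, Or.inl ⟨x, t, e, o⟩⟩).elim
  · rcases pre_cases (time_below o hx hw) with e | e | e
    · exact (h0 (tgt_act M o (e ▸ List.prefix_rfl))).elim
    · exact (h0 (tgt_act M o (e.trans (pre_app _ _)))).elim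
    · exact (h1 (tgt_act M o (e.trans (pre_app _ _)))).elim

/-- Few guests represent all the guests. -/
theorem reps [Finite V] (M : Model G lam 1 g) {Γ : Set V} (hΓ : Γ ⊆ arr lam s) :
    ∃ Γ' ⊆ Γ, Γ'.ncard ≤ 2 ^ g ∧
      ∀ w ∈ Γ, ∃ v ∈ Γ', ∀ x ∈ act G lam s, G.Adj x w ↔ G.Adj x v := by
  let P : Set (Set V) := (fun c => past G lam c s) '' {c | ∃ x t, s <+: t ∧ out G lam c x t}
  let pat : V → Set (Set V) := fun y => {τ | τ ∈ P ∧ y ∈ τ}
  obtain ⟨Γ', h1, h2⟩ := exists_subset_bijOn Γ pat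
  refine ⟨Γ', h1, ?_, fun w hw => ?_⟩
  · rw [h2.ncard_eq]
    refine le_trans (ncard_le_ncard (t := 𝒫 P) ?_ (toFinite _)) ?_
    · rintro _ ⟨y, -, rfl⟩ τ hτ
      exact hτ.1
    · rw [ncard_powerset P (toFinite _)]
      exact Nat.pow_le_pow_right (by norm_num) (M.m3 s)
  · obtain ⟨v, hv, e⟩ := h2.2.2 ⟨w, hw, rfl⟩
    refine ⟨v, hv, fun x hx => ?_⟩
    have key : ∀ a b, a ∈ Γ → pat a = pat b → G.Adj x a → G.Adj x b := fun a b ha e' h => by
      have h3 : a ∈ past G lam x s := ⟨h, hΓ ha⟩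
      rcases hx.2 with h4 | h4
      · have h5 : past G lam x s ∈ pat a := ⟨⟨x, h4, rfl⟩, h3⟩
        rw [e'] at h5
        exact h5.2.1
      · exact absurd (h4 ▸ h3) (notMem_empty a)
    exact ⟨key w v hw e.symm, key v w (h1 hv) e⟩

variable (G lam) in
/-- The active vertices with any independent set of guests lie in the closure. -/
def Ok (k : ℕ) (s : Nd) : Prop := ∀ Γ ⊆ arr lam s, (∀ x ∈ Γ, ∀ y ∈ Γ, ¬ G.Adj x y) →
  Cl Tiny k (act G lam s ∪ Γ : Set V) (G.induce (act G lam s ∪ Γ))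

theorem step [Finite V] (h : OpsSt) (hl : Injective lam) (M : Model G lam 1 g)
    (h0 : Ok G lam (2 ^ g + 1) (s ++ [false])) (h1 : Ok G lam (2 ^ g + 1) (s ++ [true])) :
    Ok G lam (2 ^ g + 1) s := by
  intro Γ hΓ hi
  obtain ⟨-, o2, o3, o4⟩ := h V G (2 ^ g + 1)
  obtain ⟨Δ, d1, d2, d3⟩ := reps M hΓ
  have t0 : tgt G lam s ⊆ act G lam (s ++ [false]) := fun _ ⟨_, o⟩ => tgt_act M o List.prefix_rfl
  have t1 : ∀ x ∈ tgt G lam s, ∀ y ∈ Δ, ¬ G.Adj x y := fun x ⟨_, o⟩ y hy e =>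
    notMem_empty y (tgt_past M o ▸ (⟨e, arr_mono (pre_app _ _) (hΓ (d1 hy))⟩ :
      y ∈ past G lam x (s ++ [false])))
  have n1 : ∀ x ∈ Δ ∪ tgt G lam s, ∀ y ∈ Δ ∪ tgt G lam s, ¬ G.Adj x y := by
    rintro x (hx | hx) y (hy | hy) e
    exacts [hi x (d1 hx) y (d1 hy) e, t1 y hy x hx e.symm, t1 x hx y hy e,
      e.ne (tgt_sub hl M s hx hy)]
  have n2 : (Δ ∪ tgt G lam s).ncard ≤ 2 ^ g + 1 := (ncard_union_le _ _).trans
    (Nat.add_le_add d2 ((ncard_le_one (toFinite _)).2 fun _ hx _ hy => tgt_sub hl M s hx hy))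
  have cA := h0 Δ (d1.trans (hΓ.trans (arr_mono (pre_app _ _))))
    fun x hx y hy => hi x (d1 hx) y (d1 hy)
  have cB := h1 (Δ ∪ tgt G lam s) (union_subset (d1.trans (hΓ.trans (arr_mono (pre_app _ _))))
    fun _ ⟨_, o⟩ => ⟨s, List.prefix_rfl, o.2.2⟩) n1
  have cC := o2 _ _ cA cB (le_trans (ncard_le_ncard (by
      rintro x ⟨hx | hx, hy | hy⟩
      exacts [(not_both hy.1 hx.1).elim, hy, Or.inl hx, hy]) (toFinite _)) n2) (by
    rintro x (hx | hx) hx' y (hy | hy | hy) hy' e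
    · exact hx' (Or.inr (Or.inr ⟨y, e.symm, hy.1, hx.1⟩))
    · exact hy' (Or.inr hy)
    · exact hy' (Or.inl (t0 hy))
    all_goals exact hx' (Or.inr (Or.inl hx)))
  have e1 : act G lam (s ++ [false]) ∪ Δ ∪ (act G lam (s ++ [true]) ∪ (Δ ∪ tgt G lam s)) ∪
      act G lam s = act G lam s ∪ Δ := by
    refine Subset.antisymm ?_ (by rintro x (hx | hx); exacts [Or.inr hx, Or.inl (Or.inl (Or.inr hx))])
    rintro x (((hx | hx) | hx | hx | hx) | hx)
    exacts [Or.inl (act_anti (pre_app _ _) hx), Or.inr hx, Or.inl (act_anti (pre_app _ _) hx),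
      Or.inr hx, Or.inl (act_anti (pre_app _ _) (t0 hx)), Or.inl hx]
  have cD := o4 _ (act G lam s) (Δ ∪ tgt G lam s) (toFinite _) cC (toFinite _) n2 n1 (by
    intro w hw hw' x hx e
    rw [e1] at hx
    have : x ∈ Δ ∪ tgt G lam s := hx.elim (fun hx => Or.inr (closed M hw.1
      (fun a => hw' (Or.inl (Or.inl a))) (fun a => hw' (Or.inr (Or.inl a))) hx.1 e)) Or.inl
    exact ⟨Or.inr (Or.inr this), this⟩)
  rw [e1] at cD
  have cE := o3 _ Γ (toFinite _) cD fun w hw => by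
    obtain ⟨v, hv, e⟩ := d3 w hw
    refine ⟨v, Or.inr hv, ?_⟩
    rintro x ((hx | hx) | hx)
    exacts [e x hx, iff_of_false (hi x (d1 hx) w hw) (hi x (d1 hx) v (d1 hv)),
      iff_of_false (hi x hx w hw) (hi x hx v (d1 hv))]
  rwa [union_assoc, union_eq_self_of_subset_left d1] at cE

theorem ok [Finite V] (h : OpsSt) (hl : Injective lam) (M : Model G lam 1 g) (s : Nd) :
    Ok G lam (2 ^ g + 1) s := by
  refine tree_ind lam (P := Ok G lam (2 ^ g + 1)) (fun s hs Γ _ hi => ?_)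
    (fun s ih => step h hl M
    (ih _ (pre_app _ _) (ne_of_app_pre List.prefix_rfl).symm)
    (ih _ (pre_app _ _) (ne_of_app_pre List.prefix_rfl).symm)) s
  rw [show act G lam s = ∅ from eq_empty_of_forall_notMem fun x hx => hs x hx.1, empty_union]
  exact (h V G _).1 Γ (toFinite _) hi

theorem no_path [Finite V] (hl : Injective lam) (M : Model G lam 1 g) (h1 : Out G lam c x)
    (h2 : Out G lam x y) (h3 : G.Adj c y) : False := by
  obtain ⟨t, o1⟩ := h1
  obtain ⟨s, o2⟩ := h2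
  exact o2.1.ne (tgt_sub hl M t ⟨c, o1⟩ ⟨c, h3, o1.2.1, (M.m2 c x y t s o1 o2).trans o2.pre'⟩)

end TinyP

open TinyP in
theorem tinyP (h : OpsSt) : TinySt := by
  intro V _ G lam g hl M
  refine ⟨?_, fun S hS => ?_⟩
  · have := ok h hl M [] ∅ (empty_subset _) fun _ hx => hx.elim
    rw [act_nil, union_empty] at this
    exact .iso _ _ _ _ this ⟨G.induceUnivIso⟩
  · classical
    obtain ⟨a, b, c, h1, h2, h3, -⟩ := SimpleGraph.is3Clique_iff.1 hS
    rcases M.m0 a b h1 with e1 | e1 <;> rcases M.m0 a c h2 with e2 | e2 <;>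
      rcases M.m0 b c h3 with e3 | e3
    exacts [no_path hl M e1 e3 h2, no_path hl M e2 e3 h1, no_path hl M e1 e3 h2,
      no_path hl M e2 e1 h3.symm, no_path hl M e1 e2 h3, no_path hl M e3 e1 h2.symm,
      no_path hl M e3 e2 h1.symm, no_path hl M e3 e1 h2.symm]

end Pool.Agent.MP_da1f04_co.R91
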