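import Pool.Agent.MP_da1f04_co.R91.Basic

/-! Compatible members of large families of gadgets. -/

set_option autoImplicit false

namespace Pool.Agent.MP_da1f04_co.R91

open Set Function I91

namespace UnionL

/-- A set covered by few small sets is small. -/
theorem cover {α β : Type} [Finite α] {S : Set α} {T : Set β} (hT : T.Finite) (P : α → β → Prop)
    (C : ℕ) (h1 : ∀ a ∈ S, ∃ b ∈ T, P a b) (h2 : ∀ b ∈ T, {a | P a b}.ncard ≤ C) :
    S.ncard ≤ C * T.ncard := by
  rcases S.eq_empty_or_nonempty with rfl | ⟨a₀, ha₀⟩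
  · simp
  have : Nonempty β := ⟨(h1 a₀ ha₀).choose⟩
  choose! f f1 f2 using h1
  exact ncard_fib hT f C f1 (toFinite _) fun b hb =>
    le_trans (ncard_le_ncard (fun a ha => ha.2 ▸ f2 a ha.1) (toFinite _)) (h2 b hb)

theorem exists_inj {α : Type} [Finite α] {M : ℕ} (h : M ≤ Nat.card α) :
    ∃ e : Fin M → α, Injective e :=
  ⟨fun i => (Finite.equivFin α).symm (Fin.castLE h i),
    (Finite.equivFin α).symm.injective.comp (Fin.castLE_injective h)⟩

end UnionL

open UnionL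

theorem sel : SelSt := by
  classical
  intro R _ ι n C cf hR hι hcf
  have fin : ∀ t, Finite (ι t) := fun t => (hι t).1
  choose e he using fun t => exists_inj (hι t).2
  have deg : ∀ i, {i' | ∃ p : R × R, cf p.1 p.2 (e p.1 i) (e p.2 i')}.ncard ≤ n * n * C := by
    intro i
    refine (cover (T := univ) (toFinite _) (fun i' (p : R × R) => cf p.1 p.2 (e p.1 i) (e p.2 i'))
      C (fun _ h => h.imp fun _ hp => ⟨trivial, hp⟩) fun p _ => ?_).trans ?_
    · exact (ncard_le_ncard_of_injOn (e p.2) (fun _ h => h) (he p.2).injOn (toFinite _)).trans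
        (hcf p.1 p.2 (e p.1 i))
    · rw [ncard_univ, Nat.card_prod, mul_comm]
      exact Nat.mul_le_mul_right _ (Nat.mul_le_mul hR hR)
  obtain ⟨φ, hφ⟩ := Kill.outdeg
    (R := fun i i' => i ≠ i' ∧ ∃ p : R × R, cf p.1 p.2 (e p.1 i) (e p.2 i')) id (n * n * C)
    (fun _ _ h => h.1) fun a => le_trans (ncard_le_ncard (by
      rintro _ ⟨v, ⟨u, h, rfl⟩, rfl⟩
      exact h.2) (toFinite _)) (deg a)
  obtain ⟨y, hy⟩ := Fintype.exists_le_card_fiber_of_mul_le_card φ (n := n)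
    (by simp [mul_comm])
  have := Fintype.ofFinite R
  obtain ⟨g⟩ : Nonempty (R ↪ {x // φ x = y}) := Function.Embedding.nonempty_of_card_le (by
    rw [Fintype.card_subtype, ← Nat.card_eq_fintype_card]
    exact hR.trans hy)
  refine ⟨fun t => e t (g t).1, fun t t' hne h => ?_⟩
  exact hφ (g t).1 (g t').1 ⟨fun e' => hne (g.injective (Subtype.ext e')), (t, t'), h⟩
    ((g t).2.trans (g t').2.symm)

theorem union (h1 : SelSt) (h2 : CrossSt) : UnionSt := by
  classical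
  intro V Z K R _ _ X k O n j s ρ L hR hn hF
  choose ι S τ w fin card F using hF
  obtain ⟨r, hr⟩ := h1 R ι n (k * (j + 1) + 1)
    (fun t t' i i' => w t' i' <+: w t i ∨ ∃ m, m ++ [true] <+: w t i ∧ m ++ [false] <+: w t' i' ∧
      ∃ x ∈ S t' i', ∃ c, out X.G X.lam c x m) hR (fun t => ⟨fin t, hn.trans (card t)⟩)
    fun t t' i => by
      have := fin t'
      have a1 : {i' | w t' i' <+: w t i}.ncard ≤ 1 :=
        (ncard_le_one (toFinite _)).2 fun a ha b hb =>
          (pre_total ha hb).elim ((F t').anti a b) fun h => ((F t').anti b a h).symm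
      have a2 : {i' | ∃ m, m ++ [true] <+: w t i ∧ m ++ [false] <+: w t' i' ∧
          ∃ x ∈ S t' i', ∃ c, out X.G X.lam c x m}.ncard ≤ k * (j + 1) := by
        refine (cover (T := {m | m ++ [true] <+: w t i ∧ ∃ i', m ++ [false] <+: w t' i'})
          ((finite_pre (w t i)).subset fun m hm => (pre_app _ _).trans hm.1)
          (fun i' m => ∃ x ∈ S t' i', ∃ c, out X.G X.lam c x m) k
          (by rintro i' ⟨m, b1, b2, b3⟩; exact ⟨m, ⟨b1, i', b2⟩, b3⟩) fun m _ => ?_).trans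
          (Nat.mul_le_mul_left _ ((F t').dv (w t i)))
        refine (cover (T := X.lam '' {x | ∃ c, out X.G X.lam c x m}) (toFinite _)
          (fun i' l => ∃ x ∈ S t' i', X.lam x = l) 1
          (by rintro i' ⟨x, b1, b2⟩; exact ⟨_, ⟨x, b2, rfl⟩, x, b1, rfl⟩) fun l _ => ?_).trans ?_
        · exact (ncard_le_one (toFinite _)).2 fun a ⟨x, b1, b2⟩ b ⟨y, b3, b4⟩ =>
            (F t').disj a b x b1 y b3 (b2.trans b4.symm)
        · rw [one_mul]
          exact O.few m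
      rw [ofPred_or]
      exact (ncard_union_le _ _).trans (by omega)
  have key : ∀ t t', t ≠ t' → ∀ x ∈ S t (r t), ∀ x' ∈ S t' (r t'), X.lam x ≠ X.lam x' ∧
      ∀ m, out X.G X.lam x x' m → ∃ u, ∃ y ∈ S u (r u), X.tg y m ∧ τ u y = m := by
    intro t t' hne x hx x' hx'
    obtain ⟨m, hm | hm⟩ := exists_meet (p := w t (r t)) (p' := w t' (r t'))
      ⟨fun h => hr t' t hne.symm (Or.inl h), fun h => hr t t' hne (Or.inl h)⟩
    · obtain ⟨b1, b2⟩ := h2 V Z X k O _ _ _ _ _ _ m ((F t').terr (r t')) ((F t).terr (r t))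
        hm.2 hm.1 (fun y hy c o => hr t t' hne (Or.inr ⟨m, hm.1, hm.2, y, hy, c, o⟩)) x' hx' x hx
      exact ⟨b1.symm, fun u o => (b2 u (Or.inr o)).elim (fun h => ⟨t', h⟩) fun h => ⟨t, h⟩⟩
    · obtain ⟨b1, b2⟩ := h2 V Z X k O _ _ _ _ _ _ m ((F t).terr (r t)) ((F t').terr (r t'))
        hm.2 hm.1 (fun y hy c o => hr t' t hne.symm (Or.inr ⟨m, hm.1, hm.2, y, hy, c, o⟩))
        x hx x' hx'
      exact ⟨b1, fun u o => (b2 u (Or.inl o)).elim (fun h => ⟨t, h⟩) fun h => ⟨t', h⟩⟩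
  have same : ∀ t t', ∀ x ∈ S t (r t), ∀ x' ∈ S t' (r t'), X.lam x = X.lam x' → t = t' :=
    fun t t' x hx x' hx' e => by_contra fun hne => (key t t' hne x hx x' hx').1 e
  let σ : V → Nd := fun x => if h : ∃ t, x ∈ S t (r t) then τ h.choose x else []
  have hσ : ∀ t, ∀ x ∈ S t (r t), σ x = τ t x := fun t x hx => by
    have h : ∃ t, x ∈ S t (r t) := ⟨t, hx⟩
    simp only [σ, dif_pos h]
    rw [same _ t x h.choose_spec x hx rfl]
  refine ⟨⋃ t, S t (r t), σ, ⟨fun x hx => ?_, fun x hx y hy e => ?_, fun c hc x hx m o => ?_⟩,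
    fun t => ((F t).force (r t)).sup (subset_iUnion (fun t => S t (r t)) t) (hσ t)⟩
  · obtain ⟨t, ht⟩ := mem_iUnion.1 hx
    exact ((F t).str (r t)).1 x ht
  · obtain ⟨t, ht⟩ := mem_iUnion.1 hx
    obtain ⟨t', ht'⟩ := mem_iUnion.1 hy
    obtain rfl := same t t' x ht y ht' e
    exact ((F t).str (r t)).2.1 ht ht' e
  · obtain ⟨t, ht⟩ := mem_iUnion.1 hc
    obtain ⟨t', ht'⟩ := mem_iUnion.1 hx
    have : ∃ u, ∃ y ∈ S u (r u), X.tg y m ∧ τ u y = m := by
      by_cases e : t = t'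
      · subst e
        exact ⟨t, ((F t).str (r t)).2.2 c ht x ht' m o⟩
      · exact (key t t' e c ht x ht').2 m o
    obtain ⟨u, y, b1, b2, b3⟩ := this
    exact ⟨y, mem_iUnion.2 ⟨u, b1⟩, b2, (hσ u y b1).trans b3⟩

end Pool.Agent.MP_da1f04_co.R91
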